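import Pool.Agent.K1H36.TS.Inst

/-!
# The trade-off
-/

set_option autoImplicit false

open Finset

namespace Pool.Agent.K1H36.TS

open Pool.Agent.K1H36.TW Pool.Agent.K1H36.NF

/-- A bound for binomial coefficients. -/
theorem choose_le {l d : ℕ} (hd : 0 < d) (hdl : d ≤ l) :
    (l.choose d : ℝ) ≤ (3 * (l : ℝ) / d) ^ d := by
  have hl : 0 < l := lt_of_lt_of_le hd hdl
  have hl' : (0 : ℝ) < l := by exact_mod_cast hl
  have hd' : (0 : ℝ) < d := by exact_mod_cast hd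
  have h1 : ((d : ℝ) / l) ^ d * (l.choose d : ℝ) ≤ ((d : ℝ) / l + 1) ^ l := by
    rw [add_pow]
    have h2 := Finset.single_le_sum
      (f := fun m => ((d : ℝ) / l) ^ m * 1 ^ (l - m) * (l.choose m : ℝ))
      (s := Finset.range (l + 1)) (fun m _ => by positivity)
      (Finset.mem_range.mpr (Nat.lt_succ_of_le hdl))
    simp only [one_pow, mul_one] at h2 ⊢
    exact h2
  have h3 : ((d : ℝ) / l + 1) ^ l ≤ 3 ^ d := by
    calc ((d : ℝ) / l + 1) ^ l ≤ (Real.exp ((d : ℝ) / l)) ^ l :=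
          pow_le_pow_left₀ (by positivity) (Real.add_one_le_exp _) _
      _ = (Real.exp 1) ^ d := by
          rw [← Real.exp_nat_mul, ← Real.exp_nat_mul]
          congr 1
          field_simp
      _ ≤ 3 ^ d := pow_le_pow_left₀ (Real.exp_pos _).le
          (Real.exp_one_lt_d9.le.trans (by norm_num)) _
  have h4 : (l.choose d : ℝ) = (((d : ℝ) / l) ^ d * (l.choose d : ℝ)) * ((l : ℝ) / d) ^ d := by
    rw [mul_comm (((d : ℝ) / l) ^ d), mul_assoc, ← mul_pow]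
    have : (d : ℝ) / l * (l / d) = 1 := by field_simp
    rw [this, one_pow, mul_one]
  rw [h4]
  calc (((d : ℝ) / l) ^ d * (l.choose d : ℝ)) * ((l : ℝ) / d) ^ d ≤ 3 ^ d * ((l : ℝ) / d) ^ d :=
        mul_le_mul_of_nonneg_right (h1.trans h3) (by positivity)
    _ = (3 * (l : ℝ) / d) ^ d := by
        rw [← mul_pow]
        congr 1
        ring

variable {l : ℕ} [Fact l.Prime]

/-- The number of the free inputs. -/
theorem card_free (hl : 64 ≤ l) (A : Finset (Bool × ZMod l × ZMod l → Vec l))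
    (hA : ∀ z, (∀ v, z v ∈ Dom l) → Free z → z ∈ A) :
    3 / 4 * ((Dom l).card : ℝ) ^ (2 * l ^ 2) ≤ (A.card : ℝ) := by
  classical
  have hlpos : (0 : ℝ) < l := by exact_mod_cast (Fact.out : l.Prime).pos
  have hN : (0 : ℝ) < (Dom l).card := by
    have := card_dom (l := l)
    have h2 : (0 : ℝ) < (l : ℝ) ^ 4 := by positivity
    linarith
  set Ω := (Fintype.piFinset fun _ : Bool × ZMod l × ZMod l => Dom l) with hΩ
  have hΩc : (Ω.card : ℝ) = ((Dom l).card : ℝ) ^ (2 * l ^ 2) := by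
    rw [hΩ, Fintype.card_piFinset, Finset.prod_const, Finset.card_univ, Fintype.card_prod,
      Fintype.card_prod, Fintype.card_bool, ZMod.card]
    have : 2 * (l * l) = 2 * l ^ 2 := by ring
    rw [this]
    push_cast
    rfl
  have h1 : (Ω.filter fun z => Free z).card + (Ω.filter fun z => ¬ Free z).card = Ω.card :=
    Finset.card_filter_add_card_filter_not _
  have h2 : (Ω.filter fun z => Free z).card ≤ A.card := by
    refine Finset.card_le_card fun z hz => ?_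
    rw [Finset.mem_filter, hΩ, Fintype.mem_piFinset] at hz
    exact hA z hz.1 hz.2
  have h3 : (Ω.filter fun z => ¬ Free z).card ≤ l ^ 3 * (Dom l).card ^ (2 * l ^ 2 - 1) := by
    convert card_not_free (l := l)
  have h4 : ((l : ℝ) ^ 3 * ((Dom l).card : ℝ) ^ (2 * l ^ 2 - 1)) ≤
      1 / 4 * ((Dom l).card : ℝ) ^ (2 * l ^ 2) := by
    have h5 : ((Dom l).card : ℝ) ^ (2 * l ^ 2) =
        ((Dom l).card : ℝ) ^ (2 * l ^ 2 - 1) * ((Dom l).card : ℝ) := by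
      rw [← pow_succ]
      congr 1
      have : 1 ≤ 2 * l ^ 2 := by
        have : 0 < l ^ 2 := by positivity
        omega
      omega
    have h6 : (l : ℝ) ^ 3 ≤ 1 / 4 * ((Dom l).card : ℝ) := by
      have h7 := card_dom (l := l)
      have h8 : (64 : ℝ) ≤ l := by exact_mod_cast hl
      have h9 : 64 * (l : ℝ) ^ 3 ≤ (l : ℝ) ^ 4 := by
        calc 64 * (l : ℝ) ^ 3 ≤ (l : ℝ) * (l : ℝ) ^ 3 := by gcongr
          _ = (l : ℝ) ^ 4 := by ring
      linarith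
    rw [h5]
    calc (l : ℝ) ^ 3 * ((Dom l).card : ℝ) ^ (2 * l ^ 2 - 1)
        ≤ (1 / 4 * ((Dom l).card : ℝ)) * ((Dom l).card : ℝ) ^ (2 * l ^ 2 - 1) := by gcongr
      _ = _ := by ring
  have h1' : ((Ω.filter fun z => Free z).card : ℝ) + ((Ω.filter fun z => ¬ Free z).card : ℝ) =
      (Ω.card : ℝ) := by exact_mod_cast h1
  have h2' : ((Ω.filter fun z => Free z).card : ℝ) ≤ (A.card : ℝ) := by exact_mod_cast h2
  have h3' : ((Ω.filter fun z => ¬ Free z).card : ℝ) ≤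
      (l : ℝ) ^ 3 * ((Dom l).card : ℝ) ^ (2 * l ^ 2 - 1) := by exact_mod_cast h3
  linarith

/-- **The trade-off, for programs which accept many inputs.** -/
theorem tradeoff {ι X Z : Type} [Fintype Z] {M : Prog ι X Z}
    {I : (Bool × ZMod l × ZMod l → Vec l) → ι → X} {ρ : ι → Option (Bool × ZMod l × ZMod l)}
    (hI : ∀ z z' c, (∀ v, ρ c = some v → z v = z' v) → I z c = I z' c)
    (hsound : ∀ z, (∀ v, z v ∈ Dom l) → M.Accepts (I z) → Free z)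
    (A : Finset (Bool × ZMod l × ZMod l → Vec l)) {k T : ℕ} (hk : 0 < k) (hT : T ≤ k * l ^ 2)
    (hA : ∀ z ∈ A, (∀ v, z v ∈ Dom l) ∧ M.AcceptsIn (I z) T)
    (hAcard : 1 / 4 * ((Dom l).card : ℝ) ^ (2 * l ^ 2) ≤ (A.card : ℝ))
    {S : ℝ} (hS : 1 ≤ S) (hZ : (Fintype.card Z : ℝ) ≤ 2 ^ S) :
    (l : ℝ) ≤ S * 2 ^ (160 * k + 60) := by
  by_contra hcon
  push Not at hcon
  have hbig : (2 : ℝ) ^ (160 * k + 60) < l := by
    refine lt_of_le_of_lt ?_ hcon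
    have : (0 : ℝ) < 2 ^ (160 * k + 60) := by positivity
    nlinarith
  have hbigN : 2 ^ (160 * k + 60) < l := by exact_mod_cast hbig
  have hl0 : 0 < l := (Fact.out : l.Prime).pos
  have hlpos : (0 : ℝ) < l := by exact_mod_cast hl0
  obtain ⟨g, hg⟩ : ∃ g, g = 4 ^ (8 * k + 1) := ⟨_, rfl⟩
  have hg0 : 0 < g := by rw [hg]; positivity
  have hgl : g ≤ l := by
    have : g ≤ 2 ^ (160 * k + 60) := by
      rw [hg, show (4 : ℕ) = 2 ^ 2 by norm_num, ← pow_mul]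
      exact Nat.pow_le_pow_right (by norm_num) (by omega)
    omega
  have hk16 : 16 * k ≤ l := by
    have h1 : k < 2 ^ k := Nat.lt_two_pow_self
    have h2 : 16 * k ≤ 2 ^ (160 * k + 60) := by
      calc 16 * k ≤ 2 ^ 4 * 2 ^ k := by omega
        _ = 2 ^ (4 + k) := by rw [pow_add]
        _ ≤ _ := Nat.pow_le_pow_right (by norm_num) (by omega)
    omega
  -- the parameters
  obtain ⟨L, hLdef⟩ : ∃ L, L = l / (8 * k) := ⟨_, rfl⟩
  have hL1 : 8 * k * L ≤ l := by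
    rw [hLdef]
    exact Nat.mul_div_le l (8 * k)
  have hL2 : l < 8 * k * (L + 1) := by
    rw [hLdef]
    exact Nat.lt_mul_div_succ l (by omega)
  have hL0 : 0 < L := by
    rcases Nat.eq_zero_or_pos L with h | h
    · rw [h] at hL2
      omega
    · exact h
  have hL3 : l ≤ 16 * k * L := by
    have : 8 * k * (L + 1) ≤ 8 * k * (2 * L) := Nat.mul_le_mul_left _ (by omega)
    calc l ≤ 8 * k * (L + 1) := hL2.le
      _ ≤ 8 * k * (2 * L) := this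
      _ = 16 * k * L := by ring
  obtain ⟨r, hrdef⟩ : ∃ r, r = T / L + 1 := ⟨_, rfl⟩
  have hr1 : T ≤ r * L := by
    have h := Nat.lt_mul_div_succ T hL0
    rw [hrdef, Nat.mul_comm]
    exact h.le
  have hr2 : r * L ≤ 2 * k * l ^ 2 := by
    have h1 : T / L * L ≤ T := Nat.div_mul_le_self T L
    have h2 : L ≤ l := by
      calc L ≤ 8 * k * L := Nat.le_mul_of_pos_left L (by omega)
        _ ≤ l := hL1
    have h3 : l ≤ k * l ^ 2 := by
      calc l = 1 * (l * 1) := by ring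
        _ ≤ k * (l * l) := Nat.mul_le_mul (by omega) (Nat.mul_le_mul_left l hl0)
        _ = k * l ^ 2 := by ring
    calc r * L = T / L * L + L := by rw [hrdef]; ring
      _ ≤ k * l ^ 2 + k * l ^ 2 := Nat.add_le_add (h1.trans hT) (h2.trans h3)
      _ = 2 * k * l ^ 2 := by ring
  have hr3 : r + 1 ≤ 18 * k ^ 2 * l := by
    have h1 : T / L ≤ 16 * k ^ 2 * l := by
      apply Nat.div_le_of_le_mul
      calc T ≤ k * l ^ 2 := hT
        _ = (k * l) * l := by ring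
        _ ≤ (k * l) * (16 * k * L) := Nat.mul_le_mul_left _ hL3
        _ = L * (16 * k ^ 2 * l) := by ring
    have h2 : 1 ≤ k ^ 2 * l := by
      have : 0 < k ^ 2 * l := by positivity
      omega
    calc r + 1 = T / L + 2 := by rw [hrdef]
      _ ≤ 16 * k ^ 2 * l + 2 * (k ^ 2 * l) := Nat.add_le_add h1 (by omega)
      _ = 18 * k ^ 2 * l := by ring
  obtain ⟨d, hddef⟩ : ∃ d, d = l / g := ⟨_, rfl⟩
  have hd1 : g * d ≤ l := by
    rw [hddef]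
    exact Nat.mul_div_le l g
  have hd2 : l < g * (d + 1) := by
    rw [hddef]
    exact Nat.lt_mul_div_succ l hg0
  have hd0 : 0 < d := by
    rw [hddef]
    exact Nat.div_pos hgl hg0
  have hd3 : l ≤ 2 * g * d := by
    have : g * (d + 1) ≤ g * (2 * d) := Nat.mul_le_mul_left _ (by omega)
    calc l ≤ g * (d + 1) := hd2.le
      _ ≤ g * (2 * d) := this
      _ = 2 * g * d := by ring
  have hdl : d ≤ l := by
    calc d ≤ g * d := Nat.le_mul_of_pos_left d hg0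
      _ ≤ l := hd1
  have hdpos : (0 : ℝ) < d := by exact_mod_cast hd0
  have hcount := count (M := M) (I := I) (ρ := ρ) (k := k) (L := L) (d := d) (r := r) (T := T)
    hk hd0 hr1 hr2 hL1 (by rw [← hg]; exact hd1) hI (Dom l)
    (fun z hz hacc => hsound z hz hacc) A hA
  -- the numbers
  obtain ⟨N, hN⟩ : ∃ N : ℝ, N = ((Dom l).card : ℝ) := ⟨_, rfl⟩
  obtain ⟨C, hC⟩ : ∃ C : ℝ, C = (l.choose d : ℝ) := ⟨_, rfl⟩
  obtain ⟨z, hz⟩ : ∃ z : ℝ, z = (Fintype.card Z : ℝ) := ⟨_, rfl⟩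
  rw [← hN] at hcount hAcard
  rw [← hC, ← hz] at hcount
  rw [← hz] at hZ
  have hN1 : (l : ℝ) ^ 4 ≤ 16 * N := by
    rw [hN]
    exact card_dom
  have hN0 : 0 < N := by
    have : (0 : ℝ) < (l : ℝ) ^ 4 := by positivity
    linarith
  have hC1 : C ≤ (3 * (l : ℝ) / d) ^ d := by
    rw [hC]
    exact choose_le hd0 hdl
  have hC0 : 0 ≤ C := by rw [hC]; exact Nat.cast_nonneg _
  have hz0 : 0 ≤ z := by rw [hz]; exact Nat.cast_nonneg _
  have hd22 : 2 * d ^ 2 ≤ 2 * l ^ 2 := by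
    have : d ^ 2 ≤ l ^ 2 := Nat.pow_le_pow_left hdl 2
    omega
  have hsplit : N ^ (2 * l ^ 2) = N ^ (2 * l ^ 2 - 2 * d ^ 2) * N ^ (2 * d ^ 2) := by
    rw [← pow_add]
    congr 1
    omega
  have step1 : 1 / 4 * N ^ (2 * d ^ 2) ≤ 2 ^ r * z ^ (r + 1) * C ^ (2 * d + 1) *
      (4 * (l : ℝ) ^ 9 / (d : ℝ) ^ 2) ^ (d ^ 2) := by
    have h1 := hAcard.trans hcount
    rw [hsplit] at h1
    have h2 : 0 < N ^ (2 * l ^ 2 - 2 * d ^ 2) := by positivity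
    have h3 : N ^ (2 * l ^ 2 - 2 * d ^ 2) * (1 / 4 * N ^ (2 * d ^ 2)) ≤
        N ^ (2 * l ^ 2 - 2 * d ^ 2) * (2 ^ r * z ^ (r + 1) * C ^ (2 * d + 1) *
          (4 * (l : ℝ) ^ 9 / (d : ℝ) ^ 2) ^ (d ^ 2)) := by
      calc _ = 1 / 4 * (N ^ (2 * l ^ 2 - 2 * d ^ 2) * N ^ (2 * d ^ 2)) := by ring
        _ ≤ _ := h1
        _ = _ := by ring
    exact le_of_mul_le_mul_left h3 h2
  have step2 : C ^ (2 * d + 1) ≤ (27 * (l : ℝ) ^ 3 / (d : ℝ) ^ 3) ^ (d ^ 2) := by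
    have h1 : (1 : ℝ) ≤ 3 * (l : ℝ) / d := by
      rw [le_div_iff₀ hdpos]
      have : (d : ℝ) ≤ l := by exact_mod_cast hdl
      linarith
    calc C ^ (2 * d + 1) ≤ ((3 * (l : ℝ) / d) ^ d) ^ (2 * d + 1) := pow_le_pow_left₀ hC0 hC1 _
      _ ≤ ((3 * (l : ℝ) / d) ^ d) ^ (3 * d) :=
          pow_le_pow_right₀ (one_le_pow₀ h1) (by omega)
      _ = ((3 * (l : ℝ) / d) ^ 3) ^ (d ^ 2) := by
          rw [← pow_mul, ← pow_mul]
          congr 1
          ring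
      _ = (27 * (l : ℝ) ^ 3 / (d : ℝ) ^ 3) ^ (d ^ 2) := by
          congr 1
          rw [div_pow, mul_pow]
          norm_num
  have step3 : ((l : ℝ) ^ 8 / 256) ^ (d ^ 2) ≤ N ^ (2 * d ^ 2) := by
    rw [pow_mul]
    refine pow_le_pow_left₀ (by positivity) ?_ _
    have h1 : (l : ℝ) ^ 4 / 16 ≤ N := by linarith
    calc (l : ℝ) ^ 8 / 256 = ((l : ℝ) ^ 4 / 16) ^ 2 := by ring
      _ ≤ N ^ 2 := pow_le_pow_left₀ (by positivity) h1 2
  have step4 : 1 / 4 * ((l : ℝ) ^ 8 / 256) ^ (d ^ 2) ≤ 2 ^ r * z ^ (r + 1) *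
      ((27 * (l : ℝ) ^ 3 / (d : ℝ) ^ 3) * (4 * (l : ℝ) ^ 9 / (d : ℝ) ^ 2)) ^ (d ^ 2) := by
    calc 1 / 4 * ((l : ℝ) ^ 8 / 256) ^ (d ^ 2) ≤ 1 / 4 * N ^ (2 * d ^ 2) := by gcongr
      _ ≤ _ := step1
      _ ≤ 2 ^ r * z ^ (r + 1) * (27 * (l : ℝ) ^ 3 / (d : ℝ) ^ 3) ^ (d ^ 2) *
          (4 * (l : ℝ) ^ 9 / (d : ℝ) ^ 2) ^ (d ^ 2) := by gcongr
      _ = _ := by rw [mul_pow]; ring
  have step5 : ((2 : ℝ) ^ (80 * k + 30)) ^ (d ^ 2) ≤ 4 * (2 ^ r * z ^ (r + 1)) := by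
    have h1 : (2 : ℝ) ^ (80 * k + 30) ≤ ((l : ℝ) ^ 8 / 256) /
        ((27 * (l : ℝ) ^ 3 / (d : ℝ) ^ 3) * (4 * (l : ℝ) ^ 9 / (d : ℝ) ^ 2)) := by
      have e1 : ((l : ℝ) ^ 8 / 256) /
          ((27 * (l : ℝ) ^ 3 / (d : ℝ) ^ 3) * (4 * (l : ℝ) ^ 9 / (d : ℝ) ^ 2)) =
          (d : ℝ) ^ 5 / (27648 * (l : ℝ) ^ 4) := by
        field_simp
        norm_num
      rw [e1, le_div_iff₀ (by positivity)]
      have e2 : (l : ℝ) ≤ 2 * g * d := by exact_mod_cast hd3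
      have e3 : (l : ℝ) ^ 5 ≤ 32 * (g : ℝ) ^ 5 * (d : ℝ) ^ 5 := by
        calc (l : ℝ) ^ 5 ≤ (2 * g * d) ^ 5 := pow_le_pow_left₀ hlpos.le e2 5
          _ = 32 * (g : ℝ) ^ 5 * (d : ℝ) ^ 5 := by ring
      have e4 : (g : ℝ) ^ 5 = 2 ^ (80 * k + 10) := by
        rw [hg]
        push_cast
        rw [show (4 : ℝ) = 2 ^ 2 by norm_num, ← pow_mul, ← pow_mul]
        congr 1
        ring
      have e5 : (2 : ℝ) ^ (80 * k + 30) * (27648 * (l : ℝ) ^ 4) * (32 * (g : ℝ) ^ 5) ≤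
          (l : ℝ) ^ 5 := by
        rw [e4]
        calc (2 : ℝ) ^ (80 * k + 30) * (27648 * (l : ℝ) ^ 4) * (32 * 2 ^ (80 * k + 10))
            = (884736 * ((2 : ℝ) ^ (80 * k + 30) * 2 ^ (80 * k + 10))) * (l : ℝ) ^ 4 := by ring
          _ = (884736 * (2 : ℝ) ^ (160 * k + 40)) * (l : ℝ) ^ 4 := by
              rw [← pow_add]
              congr 3
              ring
          _ ≤ (2 : ℝ) ^ (160 * k + 60) * (l : ℝ) ^ 4 := by
              have : (2 : ℝ) ^ (160 * k + 60) = 2 ^ 20 * 2 ^ (160 * k + 40) := by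
                rw [← pow_add]
                congr 1
                ring
              rw [this]
              gcongr
              norm_num
          _ ≤ (l : ℝ) * (l : ℝ) ^ 4 := by gcongr
          _ = (l : ℝ) ^ 5 := by ring
      have e6 : (0 : ℝ) < 32 * (g : ℝ) ^ 5 := by
        have : (0 : ℝ) < g := by exact_mod_cast hg0
        positivity
      have e7 : (2 : ℝ) ^ (80 * k + 30) * (27648 * (l : ℝ) ^ 4) * (32 * (g : ℝ) ^ 5) ≤
          (d : ℝ) ^ 5 * (32 * (g : ℝ) ^ 5) := by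
        calc _ ≤ (l : ℝ) ^ 5 := e5
          _ ≤ 32 * (g : ℝ) ^ 5 * (d : ℝ) ^ 5 := e3
          _ = _ := by ring
      exact le_of_mul_le_mul_right e7 e6
    have hpos : (0 : ℝ) < ((27 * (l : ℝ) ^ 3 / (d : ℝ) ^ 3) * (4 * (l : ℝ) ^ 9 / (d : ℝ) ^ 2)) := by
      positivity
    have h2 : ((2 : ℝ) ^ (80 * k + 30)) ^ (d ^ 2) *
        ((27 * (l : ℝ) ^ 3 / (d : ℝ) ^ 3) * (4 * (l : ℝ) ^ 9 / (d : ℝ) ^ 2)) ^ (d ^ 2) ≤
        ((l : ℝ) ^ 8 / 256) ^ (d ^ 2) := by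
      rw [← mul_pow]
      refine pow_le_pow_left₀ (by positivity) ?_ _
      rw [le_div_iff₀ hpos] at h1
      exact h1
    have h3 : ((27 * (l : ℝ) ^ 3 / (d : ℝ) ^ 3) * (4 * (l : ℝ) ^ 9 / (d : ℝ) ^ 2)) ^ (d ^ 2) *
        ((2 : ℝ) ^ (80 * k + 30)) ^ (d ^ 2) ≤
        ((27 * (l : ℝ) ^ 3 / (d : ℝ) ^ 3) * (4 * (l : ℝ) ^ 9 / (d : ℝ) ^ 2)) ^ (d ^ 2) *
        (4 * (2 ^ r * z ^ (r + 1))) := by
      calc _ = ((2 : ℝ) ^ (80 * k + 30)) ^ (d ^ 2) *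
            ((27 * (l : ℝ) ^ 3 / (d : ℝ) ^ 3) * (4 * (l : ℝ) ^ 9 / (d : ℝ) ^ 2)) ^ (d ^ 2) := by
            ring
        _ ≤ ((l : ℝ) ^ 8 / 256) ^ (d ^ 2) := h2
        _ = 4 * (1 / 4 * ((l : ℝ) ^ 8 / 256) ^ (d ^ 2)) := by ring
        _ ≤ 4 * (2 ^ r * z ^ (r + 1) *
            ((27 * (l : ℝ) ^ 3 / (d : ℝ) ^ 3) * (4 * (l : ℝ) ^ 9 / (d : ℝ) ^ 2)) ^ (d ^ 2)) := by
            linarith [step4]
        _ = _ := by ring
    exact le_of_mul_le_mul_left h3 (by positivity)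
  -- exponents
  have step6 : (80 * (k : ℝ) + 30) * (d : ℝ) ^ 2 ≤ 2 + r + S * (r + 1) := by
    have h1 : z ^ (r + 1) ≤ (2 : ℝ) ^ (S * ((r : ℝ) + 1)) := by
      calc z ^ (r + 1) ≤ ((2 : ℝ) ^ S) ^ (r + 1) := pow_le_pow_left₀ hz0 hZ _
        _ = (2 : ℝ) ^ (S * ((r : ℝ) + 1)) := by
            rw [← Real.rpow_natCast, ← Real.rpow_mul (by norm_num)]
            push_cast
            rfl
    have h2 : (2 : ℝ) ^ ((80 * (k : ℝ) + 30) * (d : ℝ) ^ 2) ≤ (2 : ℝ) ^ (2 + r + S * (r + 1)) := by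
      calc (2 : ℝ) ^ ((80 * (k : ℝ) + 30) * (d : ℝ) ^ 2)
          = ((2 : ℝ) ^ (80 * k + 30)) ^ (d ^ 2) := by
            rw [← pow_mul, ← Real.rpow_natCast (2 : ℝ) ((80 * k + 30) * d ^ 2)]
            congr 1
            push_cast
            ring
        _ ≤ 4 * (2 ^ r * z ^ (r + 1)) := step5
        _ ≤ 4 * (2 ^ r * (2 : ℝ) ^ (S * ((r : ℝ) + 1))) := by gcongr
        _ = (2 : ℝ) ^ (2 + r + S * (r + 1)) := by
            rw [Real.rpow_add (by norm_num), Real.rpow_add (by norm_num), Real.rpow_natCast]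
            norm_num
            ring
    exact (Real.rpow_le_rpow_left_iff (by norm_num)).mp h2
  have hk1 : (1 : ℝ) ≤ k := by exact_mod_cast hk
  have hr3' : (r : ℝ) + 1 ≤ 18 * (k : ℝ) ^ 2 * l := by exact_mod_cast hr3
  have hr0 : (1 : ℝ) ≤ r := by
    rw [hrdef]
    push_cast
    have : (0 : ℝ) ≤ ((T / L : ℕ) : ℝ) := Nat.cast_nonneg _
    linarith
  have step7 : (d : ℝ) ^ 2 ≤ k * l * S := by
    have h1 : 2 + r + S * (r + 1) ≤ 3 * S * ((r : ℝ) + 1) := by nlinarith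
    have h2 : 3 * S * ((r : ℝ) + 1) ≤ 3 * S * (18 * (k : ℝ) ^ 2 * l) := by
      refine mul_le_mul_of_nonneg_left hr3' (by linarith)
    have h3 : 80 * (k : ℝ) * (d : ℝ) ^ 2 ≤ (80 * (k : ℝ) + 30) * (d : ℝ) ^ 2 := by
      nlinarith [sq_nonneg (d : ℝ)]
    have h4 : 80 * (k : ℝ) * (d : ℝ) ^ 2 ≤ 80 * (k : ℝ) * (k * l * S) := by
      calc 80 * (k : ℝ) * (d : ℝ) ^ 2 ≤ 3 * S * (18 * (k : ℝ) ^ 2 * l) := by linarith
        _ = 54 * ((k : ℝ) ^ 2 * l * S) := by ring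
        _ ≤ 80 * ((k : ℝ) ^ 2 * l * S) := by
            have : 0 ≤ (k : ℝ) ^ 2 * l * S := by positivity
            linarith
        _ = _ := by ring
    exact le_of_mul_le_mul_left h4 (by positivity)
  -- the contradiction
  have e2 : (l : ℝ) ≤ 2 * g * d := by exact_mod_cast hd3
  have e3 : (l : ℝ) ^ 2 ≤ 4 * (g : ℝ) ^ 2 * (d : ℝ) ^ 2 := by
    calc (l : ℝ) ^ 2 ≤ (2 * g * d) ^ 2 := pow_le_pow_left₀ hlpos.le e2 2
      _ = _ := by ring
  have e4 : (g : ℝ) ^ 2 = 2 ^ (32 * k + 4) := by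
    rw [hg]
    push_cast
    rw [show (4 : ℝ) = 2 ^ 2 by norm_num, ← pow_mul, ← pow_mul]
    congr 1
    ring
  have e5 : (l : ℝ) * l ≤ (4 * (g : ℝ) ^ 2 * k * S) * l := by
    calc (l : ℝ) * l = (l : ℝ) ^ 2 := by ring
      _ ≤ 4 * (g : ℝ) ^ 2 * (d : ℝ) ^ 2 := e3
      _ ≤ 4 * (g : ℝ) ^ 2 * (k * l * S) := by gcongr
      _ = _ := by ring
  have e6 : (l : ℝ) ≤ 4 * (g : ℝ) ^ 2 * k * S := le_of_mul_le_mul_right e5 hlpos
  have e7 : (k : ℝ) ≤ 2 ^ k := by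
    have : k < 2 ^ k := Nat.lt_two_pow_self
    exact_mod_cast this.le
  have e8 : 4 * (g : ℝ) ^ 2 * k * S ≤ S * 2 ^ (160 * k + 60) := by
    rw [e4]
    calc 4 * (2 : ℝ) ^ (32 * k + 4) * k * S ≤ 4 * (2 : ℝ) ^ (32 * k + 4) * 2 ^ k * S := by
          gcongr
      _ = S * 2 ^ (2 + (32 * k + 4) + k) := by
          rw [pow_add (2 : ℝ) (2 + (32 * k + 4)) k, pow_add (2 : ℝ) 2 (32 * k + 4)]
          ring
      _ ≤ S * 2 ^ (160 * k + 60) := by
          have : (2 : ℝ) ^ (2 + (32 * k + 4) + k) ≤ 2 ^ (160 * k + 60) :=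
            pow_le_pow_right₀ (by norm_num) (by omega)
          gcongr
  linarith

end Pool.Agent.K1H36.TS
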