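import Pool.Agent.K1H36.TS.Fourier

/-!
# The choice of the blocks
-/

set_option autoImplicit false

open Finset

namespace Pool.Agent.K1H36.TS

/-- If there is no zero triangle between the sets, then the sets are small. -/
theorem mixing_sets {l : ℕ} [Fact l.Prime] (A B : Finset (ZMod l)) (X Y : ZMod l → Finset (Vec l))
    (h : ∀ p ∈ A, ∀ t ∈ B, ∀ x ∈ X p, ∀ y ∈ Y t, x + y ≠ tgt p t) :
    (∑ p ∈ A, (X p).card) * (∑ t ∈ B, (Y t).card) ≤ 4 * l ^ 9 := by
  classical
  set f : ZMod l → Vec l → ℝ := fun p x => if p ∈ A ∧ x ∈ X p then 1 else 0 with hf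
  set g : ZMod l → Vec l → ℝ := fun t y => if t ∈ B ∧ y ∈ Y t then 1 else 0 with hg
  have hm := mixing f g
  have h0 : ∑ p, ∑ t, ∑ x, f p x * g t (tgt p t - x) = 0 := by
    refine Finset.sum_eq_zero fun p _ => Finset.sum_eq_zero fun t _ =>
      Finset.sum_eq_zero fun x _ => ?_
    rw [hf, hg]
    simp only
    by_cases h1 : p ∈ A ∧ x ∈ X p
    · by_cases h2 : t ∈ B ∧ tgt p t - x ∈ Y t
      · exact absurd (by abel : x + (tgt p t - x) = tgt p t) (h p h1.1 t h2.1 x h1.2 _ h2.2)
      · rw [if_neg h2, mul_zero]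
    · rw [if_neg h1, zero_mul]
  have sumF : ∀ (C : Finset (ZMod l)) (W : ZMod l → Finset (Vec l)),
      ∑ p, ∑ x, (if p ∈ C ∧ x ∈ W p then (1 : ℝ) else 0) = ((∑ p ∈ C, (W p).card : ℕ) : ℝ) := by
    intro C W
    have h1 : ∀ p, ∑ x, (if p ∈ C ∧ x ∈ W p then (1 : ℝ) else 0) =
        if p ∈ C then ((W p).card : ℝ) else 0 := by
      intro p
      by_cases hp : p ∈ C
      · simp only [hp, true_and, if_true]
        rw [Finset.sum_ite_mem, Finset.univ_inter, Finset.sum_const, nsmul_eq_mul, mul_one]
      · simp [hp]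
    simp_rw [h1]
    rw [Finset.sum_ite_mem, Finset.univ_inter]
    push_cast
    rfl
  have sqF : ∀ p x, f p x ^ 2 = f p x := by
    intro p x
    rw [hf]
    simp only
    split_ifs <;> norm_num
  have sqG : ∀ p x, g p x ^ 2 = g p x := by
    intro p x
    rw [hg]
    simp only
    split_ifs <;> norm_num
  simp_rw [sqF, sqG] at hm
  rw [h0] at hm
  set a : ℝ := ∑ p, ∑ x, f p x with ha
  set b : ℝ := ∑ t, ∑ x, g t x with hb
  have ha' : a = ((∑ p ∈ A, (X p).card : ℕ) : ℝ) := sumF A X
  have hb' : b = ((∑ p ∈ B, (Y p).card : ℕ) : ℝ) := sumF B Y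
  have ha0 : 0 ≤ a := by rw [ha']; exact Nat.cast_nonneg _
  have hb0 : 0 ≤ b := by rw [hb']; exact Nat.cast_nonneg _
  have hl : (0 : ℝ) < l := by exact_mod_cast (Fact.out : l.Prime).pos
  have h1 : a * b / (l : ℝ) ^ 4 ≤ 2 * √ (l : ℝ) * (√ a * √ b) := by
    rw [zero_sub, abs_neg, abs_of_nonneg (by positivity)] at hm
    exact hm
  have h2 : √ a * √ b = √ (a * b) := (Real.sqrt_mul ha0 b).symm
  rw [h2] at h1
  have h3 : a * b = √ (a * b) * √ (a * b) := (Real.mul_self_sqrt (by positivity)).symm
  have h4 : a * b ≤ 4 * (l : ℝ) ^ 9 := by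
    by_cases hz : a * b = 0
    · rw [hz]
      positivity
    · have hpos : 0 < √ (a * b) := Real.sqrt_pos.mpr (lt_of_le_of_ne (by positivity) (Ne.symm hz))
      have h5 : √ (a * b) ≤ 2 * √ (l : ℝ) * (l : ℝ) ^ 4 := by
        rw [div_le_iff₀ (by positivity)] at h1
        have h6 : √ (a * b) * √ (a * b) ≤ (2 * √ (l : ℝ) * (l : ℝ) ^ 4) * √ (a * b) := by
          rw [← h3]
          calc a * b ≤ _ := h1
            _ = _ := by ring
        exact le_of_mul_le_mul_right h6 hpos
      calc a * b = √ (a * b) * √ (a * b) := h3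
        _ ≤ (2 * √ (l : ℝ) * (l : ℝ) ^ 4) * (2 * √ (l : ℝ) * (l : ℝ) ^ 4) :=
            mul_le_mul h5 h5 (Real.sqrt_nonneg _) (by positivity)
        _ = 4 * (√ (l : ℝ) * √ (l : ℝ)) * (l : ℝ) ^ 8 := by ring
        _ = 4 * (l : ℝ) ^ 9 := by rw [Real.mul_self_sqrt hl.le]; ring
  rw [ha', hb'] at h4
  exact_mod_cast h4

section select

variable {F : Type} [Fintype F] [DecidableEq F] {r : ℕ}

/-- The blocks in which a variable is read. -/
def blk (R : Fin r → Finset (Bool × F × F)) (v : Bool × F × F) : Finset (Fin r) :=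
  univ.filter fun j => v ∈ R j

/-- The variables of the first kind in the bucket `q` which are read in blocks of `J` only. -/
def left (R : Fin r → Finset (Bool × F × F)) (J : Finset (Fin r)) (q : F) : Finset F :=
  univ.filter fun p => blk R (false, q, p) ⊆ J

/-- The variables of the second kind in the bucket `q` which are not read in blocks of `J`. -/
def right (R : Fin r → Finset (Bool × F × F)) (J : Finset (Fin r)) (q : F) : Finset F :=
  univ.filter fun t => Disjoint (blk R (true, q, t)) J

theorem sum_blk (R : Fin r → Finset (Bool × F × F)) : ∑ v, (blk R v).card = ∑ j, (R j).card := by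
  have h1 : ∀ v, (blk R v).card = ∑ j, if v ∈ R j then 1 else 0 := by
    intro v
    unfold blk
    rw [Finset.card_filter]
  simp_rw [h1]
  rw [Finset.sum_comm]
  refine Finset.sum_congr rfl fun j _ => ?_
  rw [← Finset.card_filter]
  congr 1
  ext v
  simp

/-- The number of the sets `J` with `S ⊆ J` and `S' ∩ J = ∅`. -/
theorem card_between (S S' : Finset (Fin r)) (h : Disjoint S S') :
    (univ.filter fun J : Finset (Fin r) => S ⊆ J ∧ Disjoint S' J).card * 2 ^ (S.card + S'.card) =
      2 ^ r := by
  have h1 : (univ.filter fun J : Finset (Fin r) => S ⊆ J ∧ Disjoint S' J) = Finset.Icc S S'ᶜ := by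
    ext J
    simp only [Finset.mem_filter, Finset.mem_univ, true_and, Finset.mem_Icc]
    constructor
    · rintro ⟨h1, h2⟩
      exact ⟨h1, Finset.subset_compl_iff_disjoint_left.mpr h2⟩
    · rintro ⟨h1, h2⟩
      exact ⟨h1, Finset.subset_compl_iff_disjoint_left.mp h2⟩
  have h2 : S ⊆ S'ᶜ := Finset.subset_compl_iff_disjoint_right.mpr h
  have h3 : S.card ≤ S'ᶜ.card := Finset.card_le_card h2
  have h4 : S'ᶜ.card + S'.card = r := by
    rw [Finset.card_compl_add_card, Fintype.card_fin]
  rw [h1, Finset.card_Icc_finset h2, ← pow_add]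
  congr 1
  omega

/-- **The choice of the blocks.** -/
theorem select {k L d : ℕ} (hk : 0 < k) (R : Fin r → Finset (Bool × F × F))
    (hR : ∀ j, (R j).card ≤ L) (hr : r * L ≤ 2 * k * Fintype.card F ^ 2)
    (hL : 8 * k * L ≤ Fintype.card F) (hd : 4 ^ (8 * k + 1) * d ≤ Fintype.card F)
    (hF : 0 < Fintype.card F) :
    ∃ (J : Finset (Fin r)) (G : Finset F), d ≤ G.card ∧
      ∀ q ∈ G, d ≤ (left R J q).card ∧ d ≤ (right R J q).card := by
  classical
  set l := Fintype.card F with hl
  -- the good pairs
  set P : Finset (F × F × F) := univ.filter fun x =>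
    (blk R (false, x.1, x.2.1)).card ≤ 8 * k ∧ (blk R (true, x.1, x.2.2)).card ≤ 8 * k ∧
      Disjoint (blk R (false, x.1, x.2.1)) (blk R (true, x.1, x.2.2)) with hP
  set H : Finset (Bool × F × F) := univ.filter fun v => 8 * k < (blk R v).card with hH
  -- few variables are read in many blocks
  have heavy : 4 * H.card ≤ l ^ 2 := by
    have h1 : H.card * (8 * k) ≤ ∑ v, (blk R v).card := by
      calc H.card * (8 * k) = ∑ v ∈ H, 8 * k := by rw [Finset.sum_const, smul_eq_mul]
        _ ≤ ∑ v ∈ H, (blk R v).card :=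
            Finset.sum_le_sum fun v hv => (Finset.mem_filter.mp hv).2.le
        _ ≤ ∑ v, (blk R v).card :=
            Finset.sum_le_sum_of_subset_of_nonneg (Finset.subset_univ _) fun _ _ _ => Nat.zero_le _
    have h2 : ∑ v, (blk R v).card ≤ r * L := by
      rw [sum_blk]
      calc ∑ j, (R j).card ≤ ∑ _j : Fin r, L := Finset.sum_le_sum fun j _ => hR j
        _ = r * L := by rw [Finset.sum_const, Finset.card_univ, Fintype.card_fin, smul_eq_mul]
    have h3 : H.card * (8 * k) ≤ 2 * k * l ^ 2 := h1.trans (h2.trans hr)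
    have h4 : (4 * H.card) * (2 * k) ≤ l ^ 2 * (2 * k) := by
      calc (4 * H.card) * (2 * k) = H.card * (8 * k) := by ring
        _ ≤ 2 * k * l ^ 2 := h3
        _ = l ^ 2 * (2 * k) := by ring
    exact Nat.le_of_mul_le_mul_right h4 (by omega)
  -- the bad pairs
  have bad : 2 * (univ \ P : Finset (F × F × F)).card ≤ l ^ 3 := by
    set B1 : Finset (F × F × F) := univ.filter fun x => (false, x.1, x.2.1) ∈ H with hB1
    set B2 : Finset (F × F × F) := univ.filter fun x => (true, x.1, x.2.2) ∈ H with hB2
    set B3 : Finset (F × F × F) := (univ : Finset (Fin r)).biUnion fun j =>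
      univ.filter fun x => (false, x.1, x.2.1) ∈ R j ∧ (true, x.1, x.2.2) ∈ R j with hB3
    have hsub : (univ \ P : Finset (F × F × F)) ⊆ B1 ∪ B2 ∪ B3 := by
      intro x hx
      rw [Finset.mem_sdiff] at hx
      by_contra hcon
      rw [Finset.mem_union, Finset.mem_union] at hcon
      push Not at hcon
      obtain ⟨⟨c1, c2⟩, c3⟩ := hcon
      apply hx.2
      rw [hP, Finset.mem_filter]
      refine ⟨Finset.mem_univ _, ?_, ?_, ?_⟩
      · by_contra h
        push Not at h
        exact c1 (by rw [hB1, Finset.mem_filter, hH, Finset.mem_filter]; exact ⟨Finset.mem_univ _, Finset.mem_univ _, h⟩)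
      · by_contra h
        push Not at h
        exact c2 (by rw [hB2, Finset.mem_filter, hH, Finset.mem_filter]; exact ⟨Finset.mem_univ _, Finset.mem_univ _, h⟩)
      · rw [Finset.disjoint_left]
        intro j hj1 hj2
        apply c3
        rw [hB3, Finset.mem_biUnion]
        refine ⟨j, Finset.mem_univ _, ?_⟩
        rw [Finset.mem_filter]
        exact ⟨Finset.mem_univ _, (Finset.mem_filter.mp hj1).2, (Finset.mem_filter.mp hj2).2⟩
    have hB12 : B1.card + B2.card ≤ H.card * l := by
      have e1 : B1.card ≤ (H.filter fun v => v.1 = false).card * l := by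
        rw [hl, ← Finset.card_univ, ← Finset.card_product]
        refine Finset.card_le_card_of_injOn (fun x => ((false, x.1, x.2.1), x.2.2)) ?_ ?_
        · intro x hx
          have hx' : (false, x.1, x.2.1) ∈ H := (Finset.mem_filter.mp hx).2
          rw [Finset.mem_coe, Finset.mem_product]
          exact ⟨Finset.mem_filter.mpr ⟨hx', rfl⟩, Finset.mem_univ _⟩
        · intro x _ y _ hxy
          simp only [Prod.mk.injEq, true_and] at hxy
          exact Prod.ext hxy.1.1 (Prod.ext hxy.1.2 hxy.2)
      have e2 : B2.card ≤ (H.filter fun v => ¬ v.1 = false).card * l := by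
        rw [hl, ← Finset.card_univ, ← Finset.card_product]
        refine Finset.card_le_card_of_injOn (fun x => ((true, x.1, x.2.2), x.2.1)) ?_ ?_
        · intro x hx
          have hx' : (true, x.1, x.2.2) ∈ H := (Finset.mem_filter.mp hx).2
          rw [Finset.mem_coe, Finset.mem_product]
          exact ⟨Finset.mem_filter.mpr ⟨hx', by simp⟩, Finset.mem_univ _⟩
        · intro x _ y _ hxy
          simp only [Prod.mk.injEq, true_and] at hxy
          exact Prod.ext hxy.1.1 (Prod.ext hxy.2 hxy.1.2)
      have e3 := Finset.card_filter_add_card_filter_not (s := H) (fun v => v.1 = false)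
      calc B1.card + B2.card ≤ (H.filter fun v => v.1 = false).card * l +
            (H.filter fun v => ¬ v.1 = false).card * l := Nat.add_le_add e1 e2
        _ = ((H.filter fun v => v.1 = false).card + (H.filter fun v => ¬ v.1 = false).card) * l := by
            ring
        _ = H.card * l := by rw [e3]
    have hB3c : B3.card ≤ r * (L * L) := by
      calc B3.card ≤ ∑ j : Fin r, (univ.filter fun x : F × F × F =>
            (false, x.1, x.2.1) ∈ R j ∧ (true, x.1, x.2.2) ∈ R j).card := Finset.card_biUnion_le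
        _ ≤ ∑ _j : Fin r, L * L := by
            refine Finset.sum_le_sum fun j _ => ?_
            calc (univ.filter fun x : F × F × F =>
                (false, x.1, x.2.1) ∈ R j ∧ (true, x.1, x.2.2) ∈ R j).card
                ≤ (R j ×ˢ R j).card := by
                  refine Finset.card_le_card_of_injOn
                    (fun x => ((false, x.1, x.2.1), (true, x.1, x.2.2))) ?_ ?_
                  · intro x hx
                    have := (Finset.mem_filter.mp hx).2
                    rw [Finset.mem_coe, Finset.mem_product]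
                    exact this
                  · intro x _ y _ hxy
                    simp only [Prod.mk.injEq, true_and] at hxy
                    exact Prod.ext hxy.1.1 (Prod.ext hxy.1.2 hxy.2.2)
              _ = (R j).card * (R j).card := Finset.card_product _ _
              _ ≤ L * L := Nat.mul_le_mul (hR j) (hR j)
        _ = r * (L * L) := by
            rw [Finset.sum_const, Finset.card_univ, Fintype.card_fin, smul_eq_mul]
    have h5 : 4 * (r * (L * L)) ≤ l ^ 3 := by
      have h6 : (4 * (r * (L * L))) ≤ l ^ 2 * (8 * k * L) := by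
        calc 4 * (r * (L * L)) = 4 * ((r * L) * L) := by ring
          _ ≤ 4 * ((2 * k * l ^ 2) * L) := by gcongr
          _ = l ^ 2 * (8 * k * L) := by ring
      calc 4 * (r * (L * L)) ≤ l ^ 2 * (8 * k * L) := h6
        _ ≤ l ^ 2 * l := by gcongr
        _ = l ^ 3 := by ring
    have h7 : 4 * (H.card * l) ≤ l ^ 3 := by
      calc 4 * (H.card * l) = (4 * H.card) * l := by ring
        _ ≤ l ^ 2 * l := by gcongr
        _ = l ^ 3 := by ring
    have h8 : (univ \ P : Finset (F × F × F)).card ≤ B1.card + B2.card + B3.card := by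
      calc _ ≤ (B1 ∪ B2 ∪ B3).card := Finset.card_le_card hsub
        _ ≤ (B1 ∪ B2).card + B3.card := Finset.card_union_le _ _
        _ ≤ B1.card + B2.card + B3.card := Nat.add_le_add_right (Finset.card_union_le _ _) _
    omega
  have hPcard : l ^ 3 ≤ 2 * P.card := by
    have h1 : (univ \ P : Finset (F × F × F)).card + P.card = l ^ 3 := by
      rw [Finset.card_sdiff_add_card_eq_card (Finset.subset_univ P), Finset.card_univ,
        Fintype.card_prod, Fintype.card_prod, ← hl]
      ring
    omega
  -- average over J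
  set N : Finset (Fin r) → ℕ := fun J => (P.filter fun x =>
    blk R (false, x.1, x.2.1) ⊆ J ∧ Disjoint (blk R (true, x.1, x.2.2)) J).card with hN
  have hsum : P.card * 2 ^ r ≤ (∑ J, N J) * 4 ^ (8 * k) := by
    have e1 : ∑ J, N J = ∑ x ∈ P, (univ.filter fun J : Finset (Fin r) =>
        blk R (false, x.1, x.2.1) ⊆ J ∧ Disjoint (blk R (true, x.1, x.2.2)) J).card := by
      rw [hN]
      simp_rw [Finset.card_filter]
      rw [Finset.sum_comm]
    rw [e1, Finset.sum_mul]
    calc P.card * 2 ^ r = ∑ x ∈ P, 2 ^ r := by rw [Finset.sum_const, smul_eq_mul]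
      _ ≤ _ := by
        refine Finset.sum_le_sum fun x hx => ?_
        obtain ⟨h1, h2, h3⟩ := (Finset.mem_filter.mp hx).2
        rw [← card_between _ _ h3]
        refine Nat.mul_le_mul_left _ ?_
        calc 2 ^ ((blk R (false, x.1, x.2.1)).card + (blk R (true, x.1, x.2.2)).card)
            ≤ 2 ^ (8 * k + 8 * k) := Nat.pow_le_pow_right (by norm_num) (Nat.add_le_add h1 h2)
          _ = 4 ^ (8 * k) := by
            rw [show (4 : ℕ) = 2 ^ 2 by norm_num, ← pow_mul]
            congr 1
            ring
  obtain ⟨J, hJ⟩ : ∃ J, P.card ≤ N J * 4 ^ (8 * k) := by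
    by_contra hcon
    push Not at hcon
    have h1 : ∑ J, N J * 4 ^ (8 * k) < ∑ _J : Finset (Fin r), P.card :=
      Finset.sum_lt_sum_of_nonempty Finset.univ_nonempty fun J _ => hcon J
    rw [← Finset.sum_mul, Finset.sum_const, Finset.card_univ, Fintype.card_finset,
      Fintype.card_fin, smul_eq_mul] at h1
    have h2 : 2 ^ r * P.card = P.card * 2 ^ r := Nat.mul_comm _ _
    omega
  refine ⟨J, univ.filter fun q => d ≤ (left R J q).card ∧ d ≤ (right R J q).card, ?_,
    fun q hq => (Finset.mem_filter.mp hq).2⟩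
  set G : Finset F := univ.filter fun q => d ≤ (left R J q).card ∧ d ≤ (right R J q).card with hG
  have hNJ : N J ≤ G.card * l ^ 2 + d * l ^ 2 := by
    have e1 : N J ≤ ∑ q, (left R J q).card * (right R J q).card := by
      have : N J ≤ (univ.sigma fun q => left R J q ×ˢ right R J q).card := by
        refine Finset.card_le_card_of_injOn (fun x => (⟨x.1, x.2⟩ : Σ _ : F, F × F)) ?_ ?_
        · intro x hx
          have := (Finset.mem_filter.mp hx).2
          rw [Finset.mem_coe, Finset.mem_sigma]
          refine ⟨Finset.mem_univ _, ?_⟩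
          rw [Finset.mem_product]
          exact ⟨Finset.mem_filter.mpr ⟨Finset.mem_univ _, this.1⟩,
            Finset.mem_filter.mpr ⟨Finset.mem_univ _, this.2⟩⟩
        · intro x _ y _ hxy
          simp only [Sigma.mk.injEq, heq_eq_eq] at hxy
          exact Prod.ext hxy.1 hxy.2
      refine this.trans (le_of_eq ?_)
      rw [Finset.card_sigma]
      exact Finset.sum_congr rfl fun q _ => Finset.card_product _ _
    have hle : ∀ q, (left R J q).card ≤ l ∧ (right R J q).card ≤ l := fun q =>
      ⟨Finset.card_le_univ _, Finset.card_le_univ _⟩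
    have e2 : ∀ q, (left R J q).card * (right R J q).card ≤ (if q ∈ G then l ^ 2 else 0) + d * l := by
      intro q
      by_cases hq : q ∈ G
      · rw [if_pos hq]
        calc (left R J q).card * (right R J q).card ≤ l * l := Nat.mul_le_mul (hle q).1 (hle q).2
          _ = l ^ 2 := by ring
          _ ≤ l ^ 2 + d * l := Nat.le_add_right _ _
      · rw [if_neg hq, zero_add]
        have : (left R J q).card < d ∨ (right R J q).card < d := by
          by_contra hcon
          push Not at hcon
          exact hq (Finset.mem_filter.mpr ⟨Finset.mem_univ _, hcon⟩)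
        rcases this with h | h
        · exact Nat.mul_le_mul h.le (hle q).2
        · calc (left R J q).card * (right R J q).card ≤ l * d := Nat.mul_le_mul (hle q).1 h.le
            _ = d * l := Nat.mul_comm _ _
    calc N J ≤ ∑ q, (left R J q).card * (right R J q).card := e1
      _ ≤ ∑ q, ((if q ∈ G then l ^ 2 else 0) + d * l) := Finset.sum_le_sum fun q _ => e2 q
      _ = G.card * l ^ 2 + d * l ^ 2 := by
          rw [Finset.sum_add_distrib, Finset.sum_ite_mem, Finset.univ_inter, Finset.sum_const,
            Finset.sum_const, Finset.card_univ, ← hl, smul_eq_mul, smul_eq_mul]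
          ring
  -- conclusion
  have h1 : l ^ 2 * l ≤ l ^ 2 * (2 * 4 ^ (8 * k) * (G.card + d)) := by
    calc l ^ 2 * l = l ^ 3 := by ring
      _ ≤ 2 * P.card := hPcard
      _ ≤ 2 * (N J * 4 ^ (8 * k)) := by gcongr
      _ ≤ 2 * ((G.card * l ^ 2 + d * l ^ 2) * 4 ^ (8 * k)) := by gcongr
      _ = l ^ 2 * (2 * 4 ^ (8 * k) * (G.card + d)) := by ring
  have h2 : l ≤ 2 * 4 ^ (8 * k) * (G.card + d) :=
    Nat.le_of_mul_le_mul_left h1 (by positivity)
  have h3 : (2 * 4 ^ (8 * k)) * (2 * d) ≤ (2 * 4 ^ (8 * k)) * (G.card + d) := by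
    calc (2 * 4 ^ (8 * k)) * (2 * d) = 4 ^ (8 * k + 1) * d := by ring
      _ ≤ l := hd
      _ ≤ _ := h2
  have h4 : 2 * d ≤ G.card + d := Nat.le_of_mul_le_mul_left h3 (by positivity)
  omega

end select

end Pool.Agent.K1H36.TS
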