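import Pool.Agent.K1H36.TS.Defs
import Pool.Agent.K1H36.TS.Select

/-!
# Classes of computations
-/

set_option autoImplicit false

open Finset

namespace Pool.Agent.K1H36.TS

section reach

variable {ι X Z : Type} (M : Prog ι X Z)

/-- A step which does not read a cell of `U`. -/
def Step (x : ι → X) (U : Set ι) (a b : Z) : Prop := M.query a ∉ U ∧ M.next a (x (M.query a)) b

/-- Steps which do not read cells of `U`. -/
def Reach (x : ι → X) (U : Set ι) : Z → Z → Prop := Relation.ReflTransGen (Step M x U)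

variable {M}

theorem Reach.congr {x x' : ι → X} {U : Set ι} (h : ∀ c, c ∉ U → x c = x' c) {a b : Z}
    (hr : Reach M x U a b) : Reach M x' U a b := by
  have h3 : ∀ a b, Step M x U a b → Step M x' U a b := by
    rintro a b ⟨h1, h2⟩
    exact ⟨h1, by rw [← h _ h1]; exact h2⟩
  exact Relation.ReflTransGen.mono h3 _ _ hr

theorem Reach.empty {x : ι → X} {U : Set ι} {a b : Z} (hr : Reach M x U a b) :
    Reach M x ∅ a b := by
  have h3 : ∀ a b, Step M x U a b → Step M x ∅ a b := by
    rintro a b ⟨_, h2⟩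
    exact ⟨Set.notMem_empty _, h2⟩
  exact Relation.ReflTransGen.mono h3 _ _ hr

theorem exists_run {x : ι → X} {U : Set ι} {b : Z} (h : Reach M x U M.start b) :
    ∃ t, ∃ v : ℕ → Z, M.IsRun x t v ∧ v t = b := by
  induction h with
  | refl => exact ⟨0, fun _ => M.start, ⟨rfl, fun i hi => absurd hi (Nat.not_lt_zero i)⟩, rfl⟩
  | tail _ hstep ih =>
    rename_i b' c _
    obtain ⟨t, v, hv, hb⟩ := ih
    refine ⟨t + 1, fun i => if i ≤ t then v i else c, ⟨?_, ?_⟩, ?_⟩
    · simp only [Nat.zero_le, if_true]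
      exact hv.1
    · intro i hi
      by_cases h1 : i + 1 ≤ t
      · simp only [h1, if_true, (by omega : i ≤ t)]
        exact hv.2 i (by omega)
      · have h2 : i = t := by omega
        subst h2
        simp only [le_refl, if_true, h1, if_false]
        rw [hb]
        exact hstep.2
    · simp

/-- Steps of a computation. -/
theorem reach_of_run {x : ι → X} {t : ℕ} {v : ℕ → Z} (hv : M.IsRun x t v) (U : Set ι) (a b : ℕ)
    (hab : a ≤ b) (hbt : b ≤ t) (hU : ∀ i, a ≤ i → i < b → M.query (v i) ∉ U) :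
    Reach M x U (v a) (v b) := by
  induction b, hab using Nat.le_induction with
  | base => exact Relation.ReflTransGen.refl
  | succ b hab ih =>
    refine Relation.ReflTransGen.tail (ih (by omega) fun i h1 h2 => hU i h1 (by omega)) ?_
    exact ⟨hU b hab (by omega), hv.2 b (by omega)⟩

end reach

section cls

variable {l : ℕ} {ι X Z : Type} (M : Prog ι X Z)
  (I : (Bool × ZMod l × ZMod l → Vec l) → ι → X) (ρ : ι → Option (Bool × ZMod l × ZMod l))

/-- The cells of some variables. -/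
def cells (B : Finset (Bool × ZMod l × ZMod l)) : Set ι := {c | ∃ v ∈ B, ρ c = some v}

/-- The class of the inputs with given configurations at the ends of the blocks, such that in the
blocks of `J` no variable of `B` and in the other blocks no variable of `A` is read. -/
def Cls {r : ℕ} (J : Finset (Fin r)) (β : Fin (r + 1) → Z)
    (A B : Finset (Bool × ZMod l × ZMod l)) (z : Bool × ZMod l × ZMod l → Vec l) : Prop :=
  ∀ j : Fin r, (j ∈ J → Reach M (I z) (cells ρ B) (β j.castSucc) (β j.succ)) ∧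
    (j ∉ J → Reach M (I z) (cells ρ A) (β j.castSucc) (β j.succ))

variable {M I ρ}

theorem Cls.accepts {r : ℕ} {J : Finset (Fin r)} {β : Fin (r + 1) → Z}
    {A B : Finset (Bool × ZMod l × ZMod l)} {z : Bool × ZMod l × ZMod l → Vec l}
    (h : Cls M I ρ J β A B z) (h0 : β 0 = M.start) (h1 : M.acc (β (Fin.last r))) :
    M.Accepts (I z) := by
  have key : ∀ j : Fin (r + 1), Reach M (I z) ∅ M.start (β j) := by
    intro j
    induction j using Fin.induction with
    | zero =>
      rw [h0]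
      exact Relation.ReflTransGen.refl
    | succ j ih =>
      have hstep : Reach M (I z) ∅ (β j.castSucc) (β j.succ) := by
        by_cases hj : j ∈ J
        · exact ((h j).1 hj).empty
        · exact ((h j).2 hj).empty
      exact Relation.ReflTransGen.trans ih hstep
  obtain ⟨t, v, hv, hb⟩ := exists_run (key (Fin.last r))
  exact ⟨t, t, le_refl t, v, hv, by rw [hb]; exact h1⟩

/-- Cut and paste. -/
theorem Cls.mix (hI : ∀ z z' c, (∀ v, ρ c = some v → z v = z' v) → I z c = I z' c) {r : ℕ}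
    {J : Finset (Fin r)} {β : Fin (r + 1) → Z} {A B : Finset (Bool × ZMod l × ZMod l)}
    {z z' : Bool × ZMod l × ZMod l → Vec l} (h : Cls M I ρ J β A B z) (h' : Cls M I ρ J β A B z')
    (hag : ∀ v, v ∉ A → v ∉ B → z v = z' v) :
    Cls M I ρ J β A B (fun v => if v ∈ B then z' v else z v) := by
  intro j
  constructor
  · intro hj
    refine ((h j).1 hj).congr fun c hc => hI _ _ _ fun v hv => ?_
    have : v ∉ B := fun hB => hc ⟨v, hB, hv⟩
    rw [if_neg this]
  · intro hj
    refine ((h' j).2 hj).congr fun c hc => hI _ _ _ fun v hv => ?_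
    have h1 : v ∉ A := fun hA => hc ⟨v, hA, hv⟩
    by_cases hB : v ∈ B
    · rw [if_pos hB]
    · rw [if_neg hB]
      exact (hag v h1 hB).symm

end cls

/-! ### The size of a class -/

/-- The arithmetic and the geometric mean. -/
theorem prod_le_mean_pow {α : Type*} (s : Finset α) (f : α → ℝ) (hf : ∀ a ∈ s, 0 ≤ f a)
    (hs : 0 < s.card) : ∏ a ∈ s, f a ≤ ((∑ a ∈ s, f a) / s.card) ^ s.card := by
  have hd : (0 : ℝ) < s.card := by exact_mod_cast hs
  have h1 := Real.geom_mean_le_arith_mean_weighted s (fun _ => (1 : ℝ) / s.card) f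
    (fun _ _ => by positivity) (by rw [Finset.sum_const, nsmul_eq_mul]; field_simp) hf
  have h2 : ∑ a ∈ s, (1 : ℝ) / s.card * f a = (∑ a ∈ s, f a) / s.card := by
    rw [← Finset.mul_sum]
    ring
  rw [h2] at h1
  have h3 : (∏ a ∈ s, f a ^ ((1 : ℝ) / s.card)) ^ s.card = ∏ a ∈ s, f a := by
    rw [← Finset.prod_pow]
    refine Finset.prod_congr rfl fun a ha => ?_
    rw [← Real.rpow_natCast, ← Real.rpow_mul (hf a ha), one_div, inv_mul_cancel₀ hd.ne',
      Real.rpow_one]
  rw [← h3]
  have h4 : 0 ≤ ∏ a ∈ s, f a ^ ((1 : ℝ) / s.card) :=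
    Finset.prod_nonneg fun a ha => Real.rpow_nonneg (hf a ha) _
  exact pow_le_pow_left₀ h4 h1 _

section size

variable {l : ℕ} [Fact l.Prime]

/-- The chosen variables of one kind. -/
def side (i : Bool) (G : Finset (ZMod l)) (S : ZMod l → Finset (ZMod l)) :
    Finset (Bool × ZMod l × ZMod l) :=
  univ.filter fun v => v.1 = i ∧ v.2.1 ∈ G ∧ v.2.2 ∈ S v.2.1

theorem mem_side {i : Bool} {G : Finset (ZMod l)} {S : ZMod l → Finset (ZMod l)}
    {v : Bool × ZMod l × ZMod l} : v ∈ side i G S ↔ v.1 = i ∧ v.2.1 ∈ G ∧ v.2.2 ∈ S v.2.1 := by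
  unfold side
  rw [Finset.mem_filter]
  simp

theorem disjoint_side (G : Finset (ZMod l)) (a b : ZMod l → Finset (ZMod l)) :
    Disjoint (side false G a) (side true G b) := by
  rw [Finset.disjoint_left]
  intro v h1 h2
  rw [mem_side] at h1 h2
  exact absurd (h1.1.symm.trans h2.1) (by decide)

theorem prod_side (i : Bool) (G : Finset (ZMod l)) (S : ZMod l → Finset (ZMod l))
    (f : Bool × ZMod l × ZMod l → ℝ) :
    ∏ v ∈ side i G S, f v = ∏ q ∈ G, ∏ p ∈ S q, f (i, q, p) := by
  rw [Finset.prod_sigma' G (fun q => S q) (fun q p => f (i, q, p))]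
  symm
  refine Finset.prod_bij (fun x _ => (i, x.1, x.2)) ?_ ?_ ?_ ?_
  · intro x hx
    rw [Finset.mem_sigma] at hx
    rw [mem_side]
    exact ⟨rfl, hx.1, hx.2⟩
  · intro x _ y _ hxy
    simp only [Prod.mk.injEq, true_and] at hxy
    exact Sigma.ext hxy.1 (heq_of_eq hxy.2)
  · intro v hv
    rw [mem_side] at hv
    refine ⟨⟨v.2.1, v.2.2⟩, ?_, ?_⟩
    · rw [Finset.mem_sigma]
      exact hv.2
    · rw [← hv.1]
  · intro x _
    rfl

/-- One bucket. -/
theorem bucket_le {d : ℕ} (hd : 0 < d) (a b : Finset (ZMod l)) (ha : a.card = d) (hb : b.card = d)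
    (X Y : ZMod l → Finset (Vec l)) (h : ∀ p ∈ a, ∀ t ∈ b, ∀ x ∈ X p, ∀ y ∈ Y t, x + y ≠ tgt p t) :
    (∏ p ∈ a, ((X p).card : ℝ)) * ∏ t ∈ b, ((Y t).card : ℝ) ≤
      (4 * (l : ℝ) ^ 9 / (d : ℝ) ^ 2) ^ d := by
  have hl : (0 : ℝ) < l := by exact_mod_cast (Fact.out : l.Prime).pos
  have hd' : (0 : ℝ) < d := by exact_mod_cast hd
  have m1 := prod_le_mean_pow a (fun p => ((X p).card : ℝ))
    (fun _ _ => Nat.cast_nonneg _) (by rw [ha]; exact hd)
  have m2 := prod_le_mean_pow b (fun p => ((Y p).card : ℝ))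
    (fun _ _ => Nat.cast_nonneg _) (by rw [hb]; exact hd)
  rw [ha] at m1
  rw [hb] at m2
  have m3 := mixing_sets a b X Y h
  have m4 : (∑ p ∈ a, ((X p).card : ℝ)) * (∑ p ∈ b, ((Y p).card : ℝ)) ≤ 4 * (l : ℝ) ^ 9 := by
    exact_mod_cast m3
  calc (∏ p ∈ a, ((X p).card : ℝ)) * ∏ p ∈ b, ((Y p).card : ℝ)
      ≤ ((∑ p ∈ a, ((X p).card : ℝ)) / d) ^ d * ((∑ p ∈ b, ((Y p).card : ℝ)) / d) ^ d :=
        mul_le_mul m1 m2 (Finset.prod_nonneg fun _ _ => Nat.cast_nonneg _)
          (pow_nonneg (div_nonneg (Finset.sum_nonneg fun _ _ => Nat.cast_nonneg _) hd'.le) _)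
    _ = ((∑ p ∈ a, ((X p).card : ℝ)) * (∑ p ∈ b, ((Y p).card : ℝ)) / (d : ℝ) ^ 2) ^ d := by
        rw [← mul_pow, div_mul_div_comm, sq]
    _ ≤ (4 * (l : ℝ) ^ 9 / (d : ℝ) ^ 2) ^ d := by
        refine pow_le_pow_left₀ ?_ ?_ _
        · exact div_nonneg (mul_nonneg (Finset.sum_nonneg fun _ _ => Nat.cast_nonneg _)
            (Finset.sum_nonneg fun _ _ => Nat.cast_nonneg _)) (sq_nonneg _)
        · exact div_le_div_of_nonneg_right m4 (sq_nonneg _)

theorem card_side (i : Bool) (G : Finset (ZMod l)) (S : ZMod l → Finset (ZMod l)) {d : ℕ}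
    (hS : ∀ q ∈ G, (S q).card = d) : (side i G S).card = d * G.card := by
  have h1 : (side i G S).card = ∑ q ∈ G, (S q).card := by
    rw [← Finset.card_sigma]
    symm
    refine Finset.card_bij (fun x _ => (i, x.1, x.2)) ?_ ?_ ?_
    · intro x hx
      rw [Finset.mem_sigma] at hx
      rw [mem_side]
      exact ⟨rfl, hx.1, hx.2⟩
    · intro x _ y _ hxy
      simp only [Prod.mk.injEq, true_and] at hxy
      exact Sigma.ext hxy.1 (heq_of_eq hxy.2)
    · intro v hv
      rw [mem_side] at hv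
      refine ⟨⟨v.2.1, v.2.2⟩, ?_, ?_⟩
      · rw [Finset.mem_sigma]
        exact hv.2
      · rw [← hv.1]
  rw [h1, Finset.sum_congr rfl hS, Finset.sum_const, smul_eq_mul, Nat.mul_comm]

/-- The size of a set of functions which agree outside of `W`. -/
theorem card_le_prod {α β : Type*} [Fintype α] [DecidableEq α] [DecidableEq β] (W : Finset α)
    (C : Finset (α → β)) (h : ∀ z ∈ C, ∀ z' ∈ C, ∀ v, v ∉ W → z v = z' v) :
    (C.card : ℝ) ≤ ∏ v ∈ W, ((C.image fun z => z v).card : ℝ) := by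
  rcases C.eq_empty_or_nonempty with rfl | ⟨z₀, hz₀⟩
  · rw [Finset.card_empty, Nat.cast_zero]
    exact Finset.prod_nonneg fun _ _ => Nat.cast_nonneg _
  · have hsub : C ⊆ Fintype.piFinset fun v => if v ∈ W then C.image (fun z => z v) else {z₀ v} := by
      intro z hz
      rw [Fintype.mem_piFinset]
      intro v
      by_cases hv : v ∈ W
      · rw [if_pos hv]
        exact Finset.mem_image_of_mem (fun z => z v) hz
      · rw [if_neg hv, Finset.mem_singleton]
        exact h z hz z₀ hz₀ v hv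
    have h2 := Finset.card_le_card hsub
    rw [Fintype.card_piFinset] at h2
    have h3 : ∏ v, (if v ∈ W then C.image (fun z => z v) else {z₀ v}).card =
        ∏ v ∈ W, (C.image fun z => z v).card := by
      rw [← Finset.prod_subset (Finset.subset_univ W)]
      · refine Finset.prod_congr rfl fun v hv => ?_
        rw [if_pos hv]
      · intro v _ hv
        rw [if_neg hv, Finset.card_singleton]
    rw [h3] at h2
    exact_mod_cast h2

/-- The number of the possible values outside of `W`. -/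
theorem card_stems {α β : Type*} [Fintype α] [DecidableEq α] [DecidableEq β] (W : Finset α)
    (D : Finset β) (c : β) (C : Finset (α → β)) (hD : ∀ z ∈ C, ∀ v, z v ∈ D) :
    (C.image fun z v => if v ∈ W then c else z v).card ≤ D.card ^ (Fintype.card α - W.card) := by
  have h1 : (C.image fun z v => if v ∈ W then c else z v) ⊆
      Fintype.piFinset fun v => if v ∈ W then {c} else D := by
    intro σ hσ
    rw [Finset.mem_image] at hσ
    obtain ⟨z, hz, rfl⟩ := hσ
    rw [Fintype.mem_piFinset]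
    intro v
    by_cases hv : v ∈ W
    · simp only [if_pos hv]
      exact Finset.mem_singleton_self _
    · simp only [if_neg hv]
      exact hD z hz v
  refine (Finset.card_le_card h1).trans ?_
  rw [Fintype.card_piFinset]
  have h2 : ∏ v, (if v ∈ W then ({c} : Finset β) else D).card = ∏ v ∈ Wᶜ, D.card := by
    rw [← Finset.prod_subset (Finset.subset_univ Wᶜ)]
    · refine Finset.prod_congr rfl fun v hv => ?_
      rw [if_neg (Finset.mem_compl.mp hv)]
    · intro v _ hv
      rw [Finset.mem_compl, not_not] at hv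
      rw [if_pos hv, Finset.card_singleton]
  rw [h2, Finset.prod_const, Finset.card_compl]

/-- One stem. -/
theorem rect_le {d : ℕ} (hd : 0 < d) (G : Finset (ZMod l))
    (a b : ZMod l → Finset (ZMod l)) (ha : ∀ q ∈ G, (a q).card = d) (hb : ∀ q ∈ G, (b q).card = d)
    (C : Finset (Bool × ZMod l × ZMod l → Vec l))
    (hagree : ∀ z ∈ C, ∀ z' ∈ C, ∀ v, v ∉ side false G a ∪ side true G b → z v = z' v)
    (h : ∀ z ∈ C, ∀ z' ∈ C, ∀ q ∈ G, ∀ p ∈ a q, ∀ t ∈ b q,
      z (false, q, p) + z' (true, q, t) ≠ tgt p t) :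
    (C.card : ℝ) ≤ (4 * (l : ℝ) ^ 9 / (d : ℝ) ^ 2) ^ (d * G.card) := by
  have hAB : Disjoint (side false G a) (side true G b) := disjoint_side G a b
  have h1 := card_le_prod _ C hagree
  have h2 : ∏ v ∈ side false G a ∪ side true G b, ((C.image fun z => z v).card : ℝ) =
      ∏ q ∈ G, ((∏ p ∈ a q, ((C.image fun z => z (false, q, p)).card : ℝ)) *
        ∏ p ∈ b q, ((C.image fun z => z (true, q, p)).card : ℝ)) := by
    rw [Finset.prod_union hAB, prod_side, prod_side, ← Finset.prod_mul_distrib]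
  have h3 : ∀ q ∈ G, (∏ p ∈ a q, ((C.image fun z => z (false, q, p)).card : ℝ)) *
        ∏ p ∈ b q, ((C.image fun z => z (true, q, p)).card : ℝ) ≤
        (4 * (l : ℝ) ^ 9 / (d : ℝ) ^ 2) ^ d := by
    intro q hq
    have := bucket_le hd (a q) (b q) (ha q hq) (hb q hq)
      (fun p => C.image fun z => z (false, q, p)) (fun t => C.image fun z => z (true, q, t))
      (by
        intro p hp t ht x hx y hy
        rw [Finset.mem_image] at hx hy
        obtain ⟨z, hz, rfl⟩ := hx
        obtain ⟨z', hz', rfl⟩ := hy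
        exact h z hz z' hz' q hq p hp t ht)
    exact this
  have h4 : ∏ q ∈ G, ((∏ p ∈ a q, ((C.image fun z => z (false, q, p)).card : ℝ)) *
        ∏ p ∈ b q, ((C.image fun z => z (true, q, p)).card : ℝ)) ≤
        ∏ _q ∈ G, (4 * (l : ℝ) ^ 9 / (d : ℝ) ^ 2) ^ d := by
    refine Finset.prod_le_prod (fun q _ => ?_) h3
    exact mul_nonneg (Finset.prod_nonneg fun _ _ => Nat.cast_nonneg _)
      (Finset.prod_nonneg fun _ _ => Nat.cast_nonneg _)
  rw [Finset.prod_const, ← pow_mul] at h4
  rw [h2] at h1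
  exact h1.trans h4

/-- **The size of a set without zero triangles which is closed under cut and paste.** -/
theorem size_le (D : Finset (Vec l)) (C : Finset (Bool × ZMod l × ZMod l → Vec l))
    (hD : ∀ z ∈ C, ∀ v, z v ∈ D) {d : ℕ} (hd : 0 < d) (G : Finset (ZMod l))
    (a b : ZMod l → Finset (ZMod l)) (ha : ∀ q ∈ G, (a q).card = d) (hb : ∀ q ∈ G, (b q).card = d)
    (hmix : ∀ z ∈ C, ∀ z' ∈ C, (∀ v, v ∉ side false G a → v ∉ side true G b → z v = z' v) →
      ∃ z'' ∈ C, (∀ v ∈ side false G a, z'' v = z v) ∧ (∀ v ∈ side true G b, z'' v = z' v))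
    (hzero : ∀ z ∈ C, ∀ q p t, z (false, q, p) + z (true, q, t) ≠ tgt p t) :
    (C.card : ℝ) ≤ (D.card : ℝ) ^ (2 * l ^ 2 - 2 * (d * G.card)) *
      (4 * (l : ℝ) ^ 9 / (d : ℝ) ^ 2) ^ (d * G.card) := by
  have hl : (0 : ℝ) < l := by exact_mod_cast (Fact.out : l.Prime).pos
  have hAB : Disjoint (side false G a) (side true G b) := disjoint_side G a b
  have cardAB : (side false G a ∪ side true G b).card = 2 * (d * G.card) := by
    rw [Finset.card_union_of_disjoint hAB, card_side false G a ha, card_side true G b hb]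
    ring
  obtain ⟨W, hW⟩ : ∃ W, W = side false G a ∪ side true G b := ⟨_, rfl⟩
  obtain ⟨E, hE⟩ : ∃ E : ℝ, E = (4 * (l : ℝ) ^ 9 / (d : ℝ) ^ 2) ^ (d * G.card) := ⟨_, rfl⟩
  rw [← hW] at cardAB
  rw [← hE]
  have hE0 : 0 ≤ E := by rw [hE]; positivity
  obtain ⟨stem, hstem⟩ : ∃ stem : (Bool × ZMod l × ZMod l → Vec l) →
      (Bool × ZMod l × ZMod l → Vec l), stem = fun z v => if v ∈ W then 0 else z v := ⟨_, rfl⟩
  -- one stem
  have fiber : ∀ σ ∈ C.image stem, ((C.filter fun z => stem z = σ).card : ℝ) ≤ E := by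
    intro σ _
    obtain ⟨Cσ, hCσ⟩ : ∃ Cσ, Cσ = C.filter fun z => stem z = σ := ⟨_, rfl⟩
    rw [← hCσ]
    have hagree : ∀ z ∈ Cσ, ∀ z' ∈ Cσ, ∀ v, v ∉ W → z v = z' v := by
      intro z hz z' hz' v h3
      rw [hCσ] at hz hz'
      have e1 := congrFun (Finset.mem_filter.mp hz).2 v
      have e2 := congrFun (Finset.mem_filter.mp hz').2 v
      rw [hstem] at e1 e2
      simp only [if_neg h3] at e1 e2
      rw [e1, e2]
    rw [hE]
    refine rect_le hd G a b ha hb Cσ (fun z hz z' hz' v hv => hagree z hz z' hz' v (by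
      rw [hW]; exact hv)) ?_
    intro z hz z' hz' q hq p hp t ht
    have hz1 := hz
    have hz1' := hz'
    rw [hCσ, Finset.mem_filter] at hz1 hz1'
    obtain ⟨z'', hm, g1, g2⟩ := hmix z hz1.1 z' hz1'.1 fun v h1 h2 => hagree z hz z' hz' v (by
      rw [hW, Finset.mem_union]
      push Not
      exact ⟨h1, h2⟩)
    have h5 := hzero _ hm q p t
    rw [g1 _ (by rw [mem_side]; exact ⟨rfl, hq, hp⟩), g2 _ (by rw [mem_side]; exact ⟨rfl, hq, ht⟩)]
      at h5
    exact h5
  -- the number of the stems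
  have stems : (C.image stem).card ≤ D.card ^ (2 * l ^ 2 - 2 * (d * G.card)) := by
    have h1 := card_stems W D (0 : Vec l) C hD
    rw [cardAB, Fintype.card_prod, Fintype.card_prod, Fintype.card_bool, ZMod.card] at h1
    have h2 : 2 * (l * l) = 2 * l ^ 2 := by ring
    rw [h2] at h1
    rw [hstem]
    exact h1
  -- conclusion
  have hcard : (C.card : ℝ) = ∑ σ ∈ C.image stem, ((C.filter fun z => stem z = σ).card : ℝ) := by
    have := Finset.card_eq_sum_card_image stem C
    exact_mod_cast this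
  calc (C.card : ℝ) = ∑ σ ∈ C.image stem, ((C.filter fun z => stem z = σ).card : ℝ) := hcard
    _ ≤ ∑ _σ ∈ C.image stem, E := Finset.sum_le_sum fiber
    _ = ((C.image stem).card : ℝ) * E := by rw [Finset.sum_const, nsmul_eq_mul]
    _ ≤ (D.card : ℝ) ^ (2 * l ^ 2 - 2 * (d * G.card)) * E := by
        refine mul_le_mul_of_nonneg_right ?_ hE0
        exact_mod_cast stems

end size

end Pool.Agent.K1H36.TS
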