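import Pool.Agent.K1H36.TS.Class

/-!
# The number of the classes
-/

set_option autoImplicit false

open Finset

namespace Pool.Agent.K1H36.TS

variable {l : ℕ} [Fact l.Prime] {ι X Z : Type} {M : Prog ι X Z}
  {I : (Bool × ZMod l × ZMod l → Vec l) → ι → X} {ρ : ι → Option (Bool × ZMod l × ZMod l)}

/-- **Each input which is accepted with few reads is in a class.** -/
theorem cover {k L d r T : ℕ} (hk : 0 < k) (hT : T ≤ r * L) (hr : r * L ≤ 2 * k * l ^ 2)
    (hL : 8 * k * L ≤ l) (hd : 4 ^ (8 * k + 1) * d ≤ l) (z : Bool × ZMod l × ZMod l → Vec l)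
    (hz : M.AcceptsIn (I z) T) :
    ∃ (J : Finset (Fin r)) (β : Fin (r + 1) → Z) (G : Finset (ZMod l))
      (a b : ZMod l → Finset (ZMod l)), β 0 = M.start ∧ M.acc (β (Fin.last r)) ∧ G.card = d ∧
      (∀ q ∈ G, (a q).card = d) ∧ (∀ q ∈ G, (b q).card = d) ∧ (∀ q ∉ G, a q = ∅) ∧
      (∀ q ∉ G, b q = ∅) ∧ Cls M I ρ J β (side false G a) (side true G b) z := by
  classical
  obtain ⟨t, ht, v, hv, hacc⟩ := hz
  set R : Fin r → Finset (Bool × ZMod l × ZMod l) := fun j => univ.filter fun w =>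
    ∃ i, (j : ℕ) * L ≤ i ∧ i < ((j : ℕ) + 1) * L ∧ i < t ∧ ρ (M.query (v i)) = some w with hR
  have cardR : ∀ j, (R j).card ≤ L := by
    intro j
    have h1 : R j ⊆ (Finset.Ico ((j : ℕ) * L) (((j : ℕ) + 1) * L)).image
        (fun i => (ρ (M.query (v i))).getD (false, 0, 0)) := by
      intro w hw
      obtain ⟨i, h1, h2, _, h4⟩ := (Finset.mem_filter.mp hw).2
      rw [Finset.mem_image]
      refine ⟨i, Finset.mem_Ico.mpr ⟨h1, h2⟩, ?_⟩
      rw [h4]
      rfl
    calc (R j).card ≤ _ := Finset.card_le_card h1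
      _ ≤ (Finset.Ico ((j : ℕ) * L) (((j : ℕ) + 1) * L)).card := Finset.card_image_le
      _ = L := by
        rw [Nat.card_Ico, Nat.add_mul, one_mul, Nat.add_sub_cancel_left]
  have hcardF : Fintype.card (ZMod l) = l := ZMod.card l
  obtain ⟨J, G₀, hG₀, hsel⟩ := select (F := ZMod l) (r := r) (k := k) (L := L) (d := d) hk R cardR
    (by rw [hcardF]; exact hr) (by rw [hcardF]; exact hL) (by rw [hcardF]; exact hd)
    (by rw [hcardF]; exact (Fact.out : l.Prime).pos)
  obtain ⟨G, hGsub, hGcard⟩ := Finset.exists_subset_card_eq hG₀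
  have ha : ∀ q : ZMod l, ∃ s : Finset (ZMod l), (q ∈ G → s ⊆ left R J q ∧ s.card = d) ∧
      (q ∉ G → s = ∅) := by
    intro q
    by_cases hq : q ∈ G
    · obtain ⟨s, hs1, hs2⟩ := Finset.exists_subset_card_eq (hsel q (hGsub hq)).1
      exact ⟨s, fun _ => ⟨hs1, hs2⟩, fun h => absurd hq h⟩
    · exact ⟨∅, fun h => absurd h hq, fun _ => rfl⟩
  have hb : ∀ q : ZMod l, ∃ s : Finset (ZMod l), (q ∈ G → s ⊆ right R J q ∧ s.card = d) ∧
      (q ∉ G → s = ∅) := by
    intro q
    by_cases hq : q ∈ G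
    · obtain ⟨s, hs1, hs2⟩ := Finset.exists_subset_card_eq (hsel q (hGsub hq)).2
      exact ⟨s, fun _ => ⟨hs1, hs2⟩, fun h => absurd hq h⟩
    · exact ⟨∅, fun h => absurd h hq, fun _ => rfl⟩
  choose a ha1 ha2 using ha
  choose b hb1 hb2 using hb
  refine ⟨J, fun j => v (min ((j : ℕ) * L) t), G, a, b, ?_, ?_, hGcard, fun q hq => (ha1 q hq).2,
    fun q hq => (hb1 q hq).2, ha2, hb2, ?_⟩
  · simp only [Fin.val_zero, zero_mul, Nat.zero_min]
    exact hv.1
  · simp only [Fin.val_last]
    rw [Nat.min_eq_right (ht.trans hT)]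
    exact hacc
  · intro j
    have hle : min ((j : ℕ) * L) t ≤ min (((j : ℕ) + 1) * L) t :=
      min_le_min_right t (Nat.mul_le_mul_right L (Nat.le_succ _))
    have e1 : ((j.castSucc : Fin (r + 1)) : ℕ) = (j : ℕ) := rfl
    have e2 : ((j.succ : Fin (r + 1)) : ℕ) = (j : ℕ) + 1 := rfl
    have hin : ∀ i w, min ((j : ℕ) * L) t ≤ i → i < min (((j : ℕ) + 1) * L) t →
        ρ (M.query (v i)) = some w → j ∈ blk R w := by
      intro i w h1 h2 h3
      have h4 : i < t := lt_of_lt_of_le h2 (min_le_right _ _)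
      have h5 : i < ((j : ℕ) + 1) * L := lt_of_lt_of_le h2 (min_le_left _ _)
      have h6 : (j : ℕ) * L ≤ i := by
        rcases min_le_iff.mp h1 with h | h
        · exact h
        · omega
      unfold blk
      rw [Finset.mem_filter, hR, Finset.mem_filter]
      exact ⟨Finset.mem_univ _, Finset.mem_univ _, i, h6, h5, h4, h3⟩
    constructor
    · intro hj
      simp only [e1, e2]
      refine reach_of_run hv _ _ _ hle (min_le_right _ _) ?_
      rintro i h1 h2 ⟨w, hw, hρ⟩
      have h3 := hin i w h1 h2 hρ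
      obtain ⟨w1, w2, w3⟩ := w
      rw [mem_side] at hw
      simp only at hw
      obtain ⟨rfl, hq, ht'⟩ := hw
      have h4 := (hb1 w2 hq).1 ht'
      unfold right at h4
      rw [Finset.mem_filter, Finset.disjoint_left] at h4
      exact h4.2 h3 hj
    · intro hj
      simp only [e1, e2]
      refine reach_of_run hv _ _ _ hle (min_le_right _ _) ?_
      rintro i h1 h2 ⟨w, hw, hρ⟩
      have h3 := hin i w h1 h2 hρ
      obtain ⟨w1, w2, w3⟩ := w
      rw [mem_side] at hw
      simp only at hw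
      obtain ⟨rfl, hq, ht'⟩ := hw
      have h4 := (ha1 w2 hq).1 ht'
      unfold left at h4
      rw [Finset.mem_filter] at h4
      exact hj (h4.2 h3)

/-- The choices of the sets. -/
noncomputable def choices (l d : ℕ) [Fact l.Prime] (G : Finset (ZMod l)) :
    Finset (ZMod l → Finset (ZMod l)) :=
  Fintype.piFinset fun q => if q ∈ G then Finset.powersetCard d univ else {∅}

theorem card_choices (d : ℕ) (G : Finset (ZMod l)) :
    (choices l d G).card = (l.choose d) ^ G.card := by
  classical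
  unfold choices
  rw [Fintype.card_piFinset, ← Finset.prod_const]
  symm
  rw [← Finset.prod_subset (Finset.subset_univ G)]
  · refine Finset.prod_congr rfl fun q hq => ?_
    rw [if_pos hq, Finset.card_powersetCard, Finset.card_univ, ZMod.card]
  · intro q _ hq
    rw [if_neg hq, Finset.card_singleton]

/-- **The number of the inputs which are accepted with few reads.** -/
theorem count [Fintype Z] {k L d r T : ℕ} (hk : 0 < k) (hd0 : 0 < d) (hT : T ≤ r * L)
    (hr : r * L ≤ 2 * k * l ^ 2) (hL : 8 * k * L ≤ l) (hd : 4 ^ (8 * k + 1) * d ≤ l)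
    (hI : ∀ z z' c, (∀ v, ρ c = some v → z v = z' v) → I z c = I z' c) (D : Finset (Vec l))
    (hsound : ∀ z, (∀ v, z v ∈ D) → M.Accepts (I z) →
      ∀ q p t, z (false, q, p) + z (true, q, t) ≠ tgt p t)
    (A : Finset (Bool × ZMod l × ZMod l → Vec l))
    (hA : ∀ z ∈ A, (∀ v, z v ∈ D) ∧ M.AcceptsIn (I z) T) :
    (A.card : ℝ) ≤ 2 ^ r * (Fintype.card Z : ℝ) ^ (r + 1) * ((l.choose d : ℝ) ^ (2 * d + 1)) *
      ((D.card : ℝ) ^ (2 * l ^ 2 - 2 * d ^ 2) * (4 * (l : ℝ) ^ 9 / (d : ℝ) ^ 2) ^ (d ^ 2)) := by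
  classical
  obtain ⟨E, hE⟩ : ∃ E : ℝ, E = (D.card : ℝ) ^ (2 * l ^ 2 - 2 * d ^ 2) *
    (4 * (l : ℝ) ^ 9 / (d : ℝ) ^ 2) ^ (d ^ 2) := ⟨_, rfl⟩
  rw [← hE]
  have hE0 : 0 ≤ E := by rw [hE]; positivity
  -- the classes
  set K : (Finset (Fin r) × (Fin (r + 1) → Z)) × (ZMod l → Finset (ZMod l)) ×
      (ZMod l → Finset (ZMod l)) × Finset (ZMod l) →
      Finset (Bool × ZMod l × ZMod l → Vec l) := fun x =>
    (Fintype.piFinset fun _ => D).filter fun z => x.1.2 0 = M.start ∧
      M.acc (x.1.2 (Fin.last r)) ∧ Cls M I ρ x.1.1 x.1.2 (side false x.2.2.2 x.2.1)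
        (side true x.2.2.2 x.2.2.1) z with hK
  set Idx : Finset ((Finset (Fin r) × (Fin (r + 1) → Z)) × (ZMod l → Finset (ZMod l)) ×
      (ZMod l → Finset (ZMod l)) × Finset (ZMod l)) :=
    (Finset.powersetCard d univ).biUnion fun G =>
      (univ : Finset (Finset (Fin r) × (Fin (r + 1) → Z))) ×ˢ (choices l d G) ×ˢ
        (choices l d G) ×ˢ {G} with hIdx
  have mem_choices : ∀ (G : Finset (ZMod l)) (a : ZMod l → Finset (ZMod l)),
      a ∈ choices l d G ↔ (∀ q ∈ G, (a q).card = d) ∧ ∀ q ∉ G, a q = ∅ := by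
    intro G a
    unfold choices
    rw [Fintype.mem_piFinset]
    constructor
    · intro h
      constructor
      · intro q hq
        have := h q
        rw [if_pos hq, Finset.mem_powersetCard] at this
        exact this.2
      · intro q hq
        have := h q
        rw [if_neg hq, Finset.mem_singleton] at this
        exact this
    · rintro ⟨h1, h2⟩ q
      by_cases hq : q ∈ G
      · rw [if_pos hq, Finset.mem_powersetCard]
        exact ⟨Finset.subset_univ _, h1 q hq⟩
      · rw [if_neg hq, Finset.mem_singleton]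
        exact h2 q hq
  have mem_Idx : ∀ x, x ∈ Idx → x.2.2.2.card = d ∧ (∀ q ∈ x.2.2.2, (x.2.1 q).card = d) ∧
      ∀ q ∈ x.2.2.2, (x.2.2.1 q).card = d := by
    intro x hx
    rw [hIdx, Finset.mem_biUnion] at hx
    obtain ⟨G, hG, hx⟩ := hx
    rw [Finset.mem_product, Finset.mem_product, Finset.mem_product, Finset.mem_singleton] at hx
    obtain ⟨_, h1, h2, h3⟩ := hx
    rw [mem_choices] at h1 h2
    rw [h3]
    exact ⟨(Finset.mem_powersetCard.mp hG).2, h1.1, h2.1⟩
  have sub : A ⊆ Idx.biUnion K := by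
    intro z hz
    obtain ⟨hzD, hzA⟩ := hA z hz
    obtain ⟨J, β, G, a, b, h1, h2, h3, h4, h5, h6, h7, h8⟩ :=
      cover (ρ := ρ) hk hT hr hL hd z hzA
    rw [Finset.mem_biUnion]
    refine ⟨((J, β), a, b, G), ?_, ?_⟩
    · rw [hIdx, Finset.mem_biUnion]
      refine ⟨G, Finset.mem_powersetCard.mpr ⟨Finset.subset_univ _, h3⟩, ?_⟩
      rw [Finset.mem_product, Finset.mem_product, Finset.mem_product, Finset.mem_singleton]
      exact ⟨Finset.mem_univ _, (mem_choices G a).mpr ⟨h4, h6⟩, (mem_choices G b).mpr ⟨h5, h7⟩, rfl⟩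
    · rw [hK]
      simp only
      rw [Finset.mem_filter, Fintype.mem_piFinset]
      exact ⟨hzD, h1, h2, h8⟩
  have size : ∀ x ∈ Idx, ((K x).card : ℝ) ≤ E := by
    intro x hx
    obtain ⟨h1, h2, h3⟩ := mem_Idx x hx
    have := size_le D (K x) (fun z hz v => by
      rw [hK] at hz
      simp only at hz
      rw [Finset.mem_filter, Fintype.mem_piFinset] at hz
      exact hz.1 v) hd0 x.2.2.2 x.2.1 x.2.2.1 h2 h3 ?_ ?_
    · rw [h1, ← sq] at this
      rw [hE]
      exact this
    · intro z hz z' hz' hag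
      rw [hK] at hz hz'
      simp only at hz hz'
      rw [Finset.mem_filter, Fintype.mem_piFinset] at hz hz'
      refine ⟨fun v => if v ∈ side true x.2.2.2 x.2.2.1 then z' v else z v, ?_, ?_, ?_⟩
      · rw [hK]
        simp only
        rw [Finset.mem_filter, Fintype.mem_piFinset]
        refine ⟨?_, hz.2.1, hz.2.2.1, Cls.mix hI hz.2.2.2 hz'.2.2.2 hag⟩
        intro v
        by_cases hv : v ∈ side true x.2.2.2 x.2.2.1
        · simp only [if_pos hv]
          exact hz'.1 v
        · simp only [if_neg hv]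
          exact hz.1 v
      · intro v hv
        have : v ∉ side true x.2.2.2 x.2.2.1 :=
          Finset.disjoint_left.mp (disjoint_side _ _ _) hv
        simp only [if_neg this]
      · intro v hv
        simp only [if_pos hv]
    · intro z hz
      rw [hK] at hz
      simp only at hz
      rw [Finset.mem_filter, Fintype.mem_piFinset] at hz
      exact hsound z hz.1 (hz.2.2.2.accepts hz.2.1 hz.2.2.1)
  have cardIdx : (Idx.card : ℝ) ≤ 2 ^ r * (Fintype.card Z : ℝ) ^ (r + 1) *
      ((l.choose d : ℝ) ^ (2 * d + 1)) := by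
    have h1 : Idx.card ≤ (l.choose d) * ((2 ^ r * Fintype.card Z ^ (r + 1)) *
        ((l.choose d) ^ d * ((l.choose d) ^ d * 1))) := by
      rw [hIdx]
      refine (Finset.card_biUnion_le).trans ?_
      calc ∑ G ∈ Finset.powersetCard d (univ : Finset (ZMod l)),
            ((univ : Finset (Finset (Fin r) × (Fin (r + 1) → Z))) ×ˢ (choices l d G) ×ˢ
              (choices l d G) ×ˢ {G}).card
          = ∑ _G ∈ Finset.powersetCard d (univ : Finset (ZMod l)),
            ((2 ^ r * Fintype.card Z ^ (r + 1)) * ((l.choose d) ^ d * ((l.choose d) ^ d * 1))) := by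
            refine Finset.sum_congr rfl fun G hG => ?_
            rw [Finset.card_product, Finset.card_product, Finset.card_product, card_choices,
              Finset.card_singleton, (Finset.mem_powersetCard.mp hG).2, Finset.card_univ,
              Fintype.card_prod, Fintype.card_finset, Fintype.card_fin, Fintype.card_fun,
              Fintype.card_fin]
        _ ≤ _ := by
            rw [Finset.sum_const, Finset.card_powersetCard, Finset.card_univ, ZMod.card,
              smul_eq_mul]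
    have h2 : (Idx.card : ℝ) ≤ (l.choose d : ℝ) * ((2 ^ r * (Fintype.card Z : ℝ) ^ (r + 1)) *
        ((l.choose d : ℝ) ^ d * ((l.choose d : ℝ) ^ d * 1))) := by exact_mod_cast h1
    refine h2.trans (le_of_eq ?_)
    rw [pow_succ, two_mul, pow_add]
    ring
  calc (A.card : ℝ) ≤ ((Idx.biUnion K).card : ℝ) := by exact_mod_cast Finset.card_le_card sub
    _ ≤ ∑ x ∈ Idx, ((K x).card : ℝ) := by exact_mod_cast Finset.card_biUnion_le
    _ ≤ ∑ _x ∈ Idx, E := Finset.sum_le_sum size
    _ = (Idx.card : ℝ) * E := by rw [Finset.sum_const, nsmul_eq_mul]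
    _ ≤ _ := mul_le_mul_of_nonneg_right cardIdx hE0

end Pool.Agent.K1H36.TS
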