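import Mathlib

/-!
# Programs with random access to the input
-/

set_option autoImplicit false

namespace Pool.Agent.K1H36.TS

/-- A nonuniform nondeterministic program with random access to an input `x : ι → X`. Its
configurations are the elements of `Z`: in the configuration `a` it reads the cell `query a` of the
input and it may pass to every configuration `b` with `next a (x (query a)) b`. -/
structure Prog (ι X Z : Type) where
  /-- the first configuration -/
  start : Z
  /-- the cell which is read -/
  query : Z → ι
  /-- the possible next configurations -/
  next : Z → X → Z → Prop
  /-- the accepting configurations -/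
  acc : Z → Prop

namespace Prog

variable {ι X Z : Type} (M : Prog ι X Z)

/-- `v 0, …, v t` is a computation with `t` reads on the input `x`. -/
def IsRun (x : ι → X) (t : ℕ) (v : ℕ → Z) : Prop :=
  v 0 = M.start ∧ ∀ i < t, M.next (v i) (x (M.query (v i))) (v (i + 1))

/-- Some computation with at most `T` reads on the input `x` is accepting. -/
def AcceptsIn (x : ι → X) (T : ℕ) : Prop := ∃ t ≤ T, ∃ v : ℕ → Z, M.IsRun x t v ∧ M.acc (v t)

/-- Some computation on the input `x` is accepting. -/
def Accepts (x : ι → X) : Prop := ∃ T, M.AcceptsIn x T

end Prog

end Pool.Agent.K1H36.TS
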