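import Mathlib

/-!
# Sums on the moment curve: a mixing lemma
-/

set_option autoImplicit false

open Finset

namespace Pool.Agent.K1H36.TS

/-- Parseval, for kernels with orthogonal columns. -/
theorem parseval {α β : Type*} [Fintype α] [Fintype β] [DecidableEq β] (K : α → β → ℂ) (C : ℝ)
    (hK : ∀ b b', ∑ a, K a b * (starRingEnd ℂ) (K a b') = if b = b' then (C : ℂ) else 0)
    (G : β → ℂ) : ∑ a, ‖∑ b, G b * K a b‖ ^ 2 = C * ∑ b, ‖G b‖ ^ 2 := by
  have h1 : ((∑ a, ‖∑ b, G b * K a b‖ ^ 2 : ℝ) : ℂ) = ((C * ∑ b, ‖G b‖ ^ 2 : ℝ) : ℂ) := by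
    push_cast
    have h2 : ∀ a, ((‖∑ b, G b * K a b‖ : ℂ)) ^ 2 =
        ∑ b, ∑ b', (G b * (starRingEnd ℂ) (G b')) * (K a b * (starRingEnd ℂ) (K a b')) := by
      intro a
      rw [← Complex.mul_conj', map_sum, Finset.sum_mul_sum]
      refine Finset.sum_congr rfl fun b _ => Finset.sum_congr rfl fun b' _ => ?_
      rw [map_mul]
      ring
    simp_rw [h2]
    rw [Finset.sum_comm]
    have h3 : ∀ b, ∑ a, ∑ b', (G b * (starRingEnd ℂ) (G b')) * (K a b * (starRingEnd ℂ) (K a b')) =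
        (C : ℂ) * (‖G b‖ : ℂ) ^ 2 := by
      intro b
      rw [Finset.sum_comm]
      simp_rw [← Finset.mul_sum, hK]
      simp only [mul_ite, mul_zero, Finset.sum_ite_eq, Finset.mem_univ, if_true]
      rw [← Complex.mul_conj']
      ring
    simp_rw [h3]
    rw [← Finset.mul_sum]
  exact_mod_cast h1

variable {l : ℕ} [Fact l.Prime]

/-- The values. -/
abbrev Vec (l : ℕ) := Fin 4 → ZMod l

/-- The scalar product. -/
def dot (h x : Vec l) : ZMod l := ∑ i, h i * x i

/-- The targets: `t (p, p², p³, p⁴)`. -/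
def tgt (p t : ZMod l) : Vec l := fun i => t * p ^ ((i : ℕ) + 1)

/-- The polynomial of `h`. -/
def pol (h : Vec l) (p : ZMod l) : ZMod l := ∑ i, h i * p ^ ((i : ℕ) + 1)

theorem dot_tgt (h : Vec l) (p t : ZMod l) : dot h (tgt p t) = t * pol h p := by
  unfold dot tgt pol
  rw [Finset.mul_sum]
  exact Finset.sum_congr rfl fun i _ => by ring

theorem dot_add (h x y : Vec l) : dot h (x + y) = dot h x + dot h y := by
  unfold dot
  rw [← Finset.sum_add_distrib]
  exact Finset.sum_congr rfl fun i _ => by rw [Pi.add_apply]; ring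

theorem dot_sub (h x y : Vec l) : dot h (x - y) = dot h x - dot h y := by
  unfold dot
  rw [← Finset.sum_sub_distrib]
  exact Finset.sum_congr rfl fun i _ => by rw [Pi.sub_apply]; ring

theorem dot_zero_left (x : Vec l) : dot 0 x = 0 := by
  unfold dot
  simp

/-- The character. -/
noncomputable def chi (a : ZMod l) : ℂ := ZMod.stdAddChar a

theorem chi_add (a b : ZMod l) : chi (a + b) = chi a * chi b := by
  unfold chi
  exact AddChar.map_add_eq_mul _ _ _

theorem chi_zero : chi (0 : ZMod l) = 1 := by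
  unfold chi
  exact AddChar.map_zero_eq_one _

theorem conj_chi (a : ZMod l) : (starRingEnd ℂ) (chi a) = chi (-a) := by
  unfold chi
  rw [AddChar.map_neg_eq_conj]

theorem sum_chi (b : ZMod l) : ∑ a : ZMod l, chi (a * b) = if b = 0 then (l : ℂ) else 0 := by
  unfold chi
  have h := AddChar.sum_mulShift (R := ZMod l) (R' := ℂ) b (ZMod.isPrimitive_stdAddChar l)
  rw [ZMod.card] at h
  exact_mod_cast h

theorem sum_chi_dot (x : Vec l) : ∑ h : Vec l, chi (dot h x) = if x = 0 then ((l : ℂ)) ^ 4 else 0 := by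
  have h1 : ∀ h : Vec l, chi (dot h x) = ∏ i, chi (h i * x i) := by
    intro h
    unfold dot
    have : ∀ s : Finset (Fin 4), chi (∑ i ∈ s, h i * x i) = ∏ i ∈ s, chi (h i * x i) := by
      intro s
      induction s using Finset.induction_on with
      | empty => simp [chi_zero]
      | insert a s ha ih => rw [Finset.sum_insert ha, Finset.prod_insert ha, chi_add, ih]
    exact this univ
  simp_rw [h1]
  have h2 := (Finset.prod_univ_sum (fun _ : Fin 4 => (univ : Finset (ZMod l)))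
    (fun i a => chi (a * x i))).symm
  rw [Fintype.piFinset_univ] at h2
  rw [h2]
  simp_rw [sum_chi]
  by_cases hx : x = 0
  · subst hx
    simp
  · rw [if_neg hx]
    obtain ⟨i, hi⟩ : ∃ i, x i ≠ 0 := by
      by_contra hcon
      push Not at hcon
      exact hx (funext hcon)
    exact Finset.prod_eq_zero (Finset.mem_univ i) (if_neg hi)

/-- Each value of the polynomial of `h ≠ 0` is taken at most four times. -/
theorem card_pol (h : Vec l) (hh : h ≠ 0) (u : ZMod l) :
    (univ.filter fun p : ZMod l => pol h p = u).card ≤ 4 := by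
  classical
  set Q : Polynomial (ZMod l) :=
    (∑ i : Fin 4, Polynomial.C (h i) * Polynomial.X ^ ((i : ℕ) + 1)) - Polynomial.C u with hQ
  have hcoeff : ∀ j : Fin 4, Q.coeff ((j : ℕ) + 1) = h j := by
    intro j
    rw [hQ, Polynomial.coeff_sub, Polynomial.coeff_C_of_ne_zero (Nat.succ_ne_zero _), sub_zero,
      Polynomial.finsetSum_coeff]
    simp_rw [Polynomial.coeff_C_mul, Polynomial.coeff_X_pow]
    rw [Finset.sum_eq_single j]
    · simp
    · intro b _ hb
      have : ¬ ((j : ℕ) + 1 = (b : ℕ) + 1) := by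
        intro hc
        exact hb (Fin.ext (by omega))
      rw [if_neg this, mul_zero]
    · intro hj
      exact absurd (Finset.mem_univ j) hj
  have hne : Q ≠ 0 := by
    intro h0
    apply hh
    funext j
    have := hcoeff j
    rw [h0, Polynomial.coeff_zero] at this
    exact this.symm
  have hdeg : Q.natDegree ≤ 4 := by
    rw [hQ]
    refine (Polynomial.natDegree_sub_le _ _).trans (max_le ?_ (by simp))
    refine Polynomial.natDegree_sum_le_of_forall_le _ _ fun i _ => ?_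
    refine (Polynomial.natDegree_C_mul_X_pow_le _ _).trans ?_
    omega
  have hsub : (univ.filter fun p : ZMod l => pol h p = u) ⊆ Q.roots.toFinset := by
    intro p hp
    rw [Finset.mem_filter] at hp
    rw [Multiset.mem_toFinset, Polynomial.mem_roots hne, Polynomial.IsRoot.def, hQ,
      Polynomial.eval_sub, Polynomial.eval_C, Polynomial.eval_finsetSum]
    have : ∑ i : Fin 4, Polynomial.eval p (Polynomial.C (h i) * Polynomial.X ^ ((i : ℕ) + 1)) =
        pol h p := by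
      unfold pol
      exact Finset.sum_congr rfl fun i _ => by simp
    rw [this, hp.2, sub_self]
  calc (univ.filter fun p : ZMod l => pol h p = u).card ≤ Q.roots.toFinset.card :=
        Finset.card_le_card hsub
    _ ≤ Multiset.card Q.roots := Multiset.toFinset_card_le _
    _ ≤ Q.natDegree := Polynomial.card_roots' _
    _ ≤ 4 := hdeg

/-- One frequency. -/
theorem frequency (h : Vec l) (hh : h ≠ 0) (F G : ZMod l → ℂ) :
    ‖∑ p, ∑ t, F p * G t * chi (- (t * pol h p))‖ ≤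
      2 * √ (l : ℝ) * (√ (∑ p, ‖F p‖ ^ 2) * √ (∑ t, ‖G t‖ ^ 2)) := by
  classical
  set K : ZMod l → ℂ := fun u => ∑ t, G t * chi (- (t * u)) with hKdef
  have h1 : ∑ p, ∑ t, F p * G t * chi (- (t * pol h p)) = ∑ p, F p * K (pol h p) := by
    refine Finset.sum_congr rfl fun p _ => ?_
    rw [hKdef]
    simp only
    rw [Finset.mul_sum]
    exact Finset.sum_congr rfl fun t _ => by ring
  have h2 : ∑ u, ‖K u‖ ^ 2 = (l : ℝ) * ∑ t, ‖G t‖ ^ 2 := by
    refine parseval (fun u t => chi (- (t * u))) (l : ℝ) ?_ G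
    intro b b'
    have e : ∀ a : ZMod l, chi (- (b * a)) * (starRingEnd ℂ) (chi (- (b' * a))) =
        chi (a * (b' - b)) := by
      intro a
      rw [conj_chi, ← chi_add]
      congr 1
      ring
    simp_rw [e]
    rw [sum_chi]
    by_cases hb : b = b'
    · rw [if_pos hb, if_pos (by rw [hb, sub_self])]
      norm_cast
    · rw [if_neg hb, if_neg (fun hc => hb (sub_eq_zero.mp hc).symm)]
  have h3 : ∑ p, ‖K (pol h p)‖ ^ 2 ≤ 4 * ∑ u, ‖K u‖ ^ 2 := by
    calc ∑ p, ‖K (pol h p)‖ ^ 2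
        = ∑ u, ∑ p ∈ univ.filter (fun p => pol h p = u), ‖K (pol h p)‖ ^ 2 :=
          (Finset.sum_fiberwise univ (fun p => pol h p) (fun p => ‖K (pol h p)‖ ^ 2)).symm
      _ ≤ ∑ u, 4 * ‖K u‖ ^ 2 := by
          refine Finset.sum_le_sum fun u _ => ?_
          calc ∑ p ∈ univ.filter (fun p => pol h p = u), ‖K (pol h p)‖ ^ 2
              = ∑ p ∈ univ.filter (fun p => pol h p = u), ‖K u‖ ^ 2 := by
                refine Finset.sum_congr rfl fun p hp => ?_
                rw [(Finset.mem_filter.mp hp).2]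
            _ = ((univ.filter (fun p => pol h p = u)).card : ℝ) * ‖K u‖ ^ 2 := by
                rw [Finset.sum_const, nsmul_eq_mul]
            _ ≤ 4 * ‖K u‖ ^ 2 := by
                have h4 : ((univ.filter (fun p => pol h p = u)).card : ℝ) ≤ 4 := by
                  exact_mod_cast card_pol h hh u
                exact mul_le_mul_of_nonneg_right h4 (by positivity)
      _ = 4 * ∑ u, ‖K u‖ ^ 2 := by rw [Finset.mul_sum]
  rw [h1]
  have hS : 0 ≤ ∑ t, ‖G t‖ ^ 2 := Finset.sum_nonneg fun _ _ => by positivity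
  calc ‖∑ p, F p * K (pol h p)‖ ≤ ∑ p, ‖F p‖ * ‖K (pol h p)‖ := by
        refine (norm_sum_le _ _).trans (Finset.sum_le_sum fun p _ => ?_)
        rw [norm_mul]
    _ ≤ √ (∑ p, ‖F p‖ ^ 2) * √ (∑ p, ‖K (pol h p)‖ ^ 2) := by
        have := Real.sum_mul_le_sqrt_mul_sqrt univ (fun p => ‖F p‖) (fun p => ‖K (pol h p)‖)
        exact this
    _ ≤ √ (∑ p, ‖F p‖ ^ 2) * √ (4 * ((l : ℝ) * ∑ t, ‖G t‖ ^ 2)) := by
        refine mul_le_mul_of_nonneg_left (Real.sqrt_le_sqrt ?_) (Real.sqrt_nonneg _)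
        rw [← h2]
        exact h3
    _ = 2 * √ (l : ℝ) * (√ (∑ p, ‖F p‖ ^ 2) * √ (∑ t, ‖G t‖ ^ 2)) := by
        have h4 : √ (4 * ((l : ℝ) * ∑ t, ‖G t‖ ^ 2)) = 2 * (√ (l : ℝ) * √ (∑ t, ‖G t‖ ^ 2)) := by
          rw [Real.sqrt_mul (by norm_num : (0 : ℝ) ≤ 4), Real.sqrt_mul (Nat.cast_nonneg l)]
          congr 1
          rw [show (4 : ℝ) = 2 ^ 2 by norm_num, Real.sqrt_sq (by norm_num)]
        rw [h4]
        ring

/-- **The mixing lemma.** -/
theorem mixing (f g : ZMod l → Vec l → ℝ) :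
    |∑ p, ∑ t, ∑ x, f p x * g t (tgt p t - x) - (∑ p, ∑ x, f p x) * (∑ t, ∑ x, g t x) / (l : ℝ) ^ 4| ≤
      2 * √ (l : ℝ) * (√ (∑ p, ∑ x, f p x ^ 2) * √ (∑ t, ∑ x, g t x ^ 2)) := by
  classical
  have hl : (0 : ℝ) < l := by exact_mod_cast (Fact.out : l.Prime).pos
  have hlc : ((l : ℂ)) ^ 4 ≠ 0 := by
    have : (l : ℂ) ≠ 0 := by exact_mod_cast (Fact.out : l.Prime).ne_zero
    exact pow_ne_zero _ this
  -- transforms
  set F : Vec l → ZMod l → ℂ := fun h p => ∑ x, (f p x : ℂ) * chi (dot h x) with hF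
  set G : Vec l → ZMod l → ℂ := fun h t => ∑ x, (g t x : ℂ) * chi (dot h x) with hG
  -- the sum over all frequencies
  have key : ∑ h : Vec l, ∑ p, ∑ t, F h p * G h t * chi (- (t * pol h p)) =
      ((l : ℂ)) ^ 4 * ∑ p, ∑ t, ∑ x, ((f p x : ℂ) * (g t (tgt p t - x) : ℂ)) := by
    have e1 : ∀ h p t, F h p * G h t * chi (- (t * pol h p)) =
        ∑ x, ∑ y, ((f p x : ℂ) * (g t y : ℂ)) * chi (dot h (x + y - tgt p t)) := by
      intro h p t
      rw [hF, hG]
      simp only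
      rw [Finset.sum_mul_sum, Finset.sum_mul]
      refine Finset.sum_congr rfl fun x _ => ?_
      rw [Finset.sum_mul]
      refine Finset.sum_congr rfl fun y _ => ?_
      have e2 : dot h (x + y - tgt p t) = dot h x + (dot h y + (- (t * pol h p))) := by
        rw [dot_sub, dot_add, dot_tgt]
        ring
      rw [e2, chi_add, chi_add]
      ring
    simp_rw [e1]
    rw [Finset.sum_comm, Finset.mul_sum]
    refine Finset.sum_congr rfl fun p _ => ?_
    rw [Finset.sum_comm, Finset.mul_sum]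
    refine Finset.sum_congr rfl fun t _ => ?_
    rw [Finset.sum_comm, Finset.mul_sum]
    refine Finset.sum_congr rfl fun x _ => ?_
    rw [Finset.sum_comm]
    have e3 : ∀ y, ∑ h : Vec l, (f p x : ℂ) * (g t y : ℂ) * chi (dot h (x + y - tgt p t)) =
        if y = tgt p t - x then ((l : ℂ)) ^ 4 * ((f p x : ℂ) * (g t (tgt p t - x) : ℂ)) else 0 := by
      intro y
      rw [← Finset.mul_sum, sum_chi_dot]
      by_cases hy : y = tgt p t - x
      · have : x + y - tgt p t = 0 := by rw [hy]; abel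
        rw [if_pos hy, if_pos this, hy]
        ring
      · have : ¬ x + y - tgt p t = 0 := by
          intro hc
          apply hy
          have h5 : x + y = tgt p t := sub_eq_zero.mp hc
          rw [← h5]
          abel
        rw [if_neg hy, if_neg this, mul_zero]
    simp_rw [e3]
    rw [Finset.sum_ite_eq' univ (tgt p t - x)]
    simp
  -- the frequency zero
  have zero : ∑ p, ∑ t, F 0 p * G 0 t * chi (- (t * pol (0 : Vec l) p)) =
      (((∑ p, ∑ x, f p x) * (∑ t, ∑ x, g t x) : ℝ) : ℂ) := by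
    have e0 : ∀ p, pol (0 : Vec l) p = 0 := by
      intro p
      unfold pol
      simp
    have eF : ∀ p, F 0 p = ((∑ x, f p x : ℝ) : ℂ) := by
      intro p
      rw [hF]
      simp only
      push_cast
      refine Finset.sum_congr rfl fun x _ => ?_
      rw [dot_zero_left, chi_zero, mul_one]
    have eG : ∀ t, G 0 t = ((∑ x, g t x : ℝ) : ℂ) := by
      intro t
      rw [hG]
      simp only
      push_cast
      refine Finset.sum_congr rfl fun x _ => ?_
      rw [dot_zero_left, chi_zero, mul_one]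
    simp_rw [e0, eF, eG, mul_zero, neg_zero, chi_zero, mul_one]
    rw [← Finset.sum_mul_sum]
    push_cast
    ring
  -- the other frequencies
  have rest : ‖∑ h ∈ univ.erase (0 : Vec l), ∑ p, ∑ t, F h p * G h t * chi (- (t * pol h p))‖ ≤
      2 * √ (l : ℝ) * ((l : ℝ) ^ 4 * (√ (∑ p, ∑ x, f p x ^ 2) * √ (∑ t, ∑ x, g t x ^ 2))) := by
    have pv : ∀ u : Vec l → ℝ, ∑ h : Vec l, ‖∑ x, (u x : ℂ) * chi (dot h x)‖ ^ 2 =
        (l : ℝ) ^ 4 * ∑ x, u x ^ 2 := by
      intro u
      have := parseval (fun h x : Vec l => chi (dot h x)) ((l : ℝ) ^ 4) ?_ (fun x => (u x : ℂ))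
      · rw [this]
        congr 1
        refine Finset.sum_congr rfl fun x _ => ?_
        rw [Complex.norm_real, Real.norm_eq_abs, sq_abs]
      · intro b b'
        have e : ∀ a : Vec l, chi (dot a b) * (starRingEnd ℂ) (chi (dot a b')) =
            chi (dot a (b - b')) := by
          intro a
          rw [conj_chi, ← chi_add, dot_sub]
          congr 1
          ring
        simp_rw [e]
        rw [sum_chi_dot]
        by_cases hb : b = b'
        · rw [if_pos hb, if_pos (by rw [hb, sub_self])]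
          norm_cast
        · rw [if_neg hb, if_neg (fun hc => hb (sub_eq_zero.mp hc))]
    have pF : ∑ h : Vec l, ∑ p, ‖F h p‖ ^ 2 = (l : ℝ) ^ 4 * ∑ p, ∑ x, f p x ^ 2 := by
      rw [Finset.sum_comm, Finset.mul_sum]
      exact Finset.sum_congr rfl fun p _ => pv (f p)
    have pG : ∑ h : Vec l, ∑ t, ‖G h t‖ ^ 2 = (l : ℝ) ^ 4 * ∑ t, ∑ x, g t x ^ 2 := by
      rw [Finset.sum_comm, Finset.mul_sum]
      exact Finset.sum_congr rfl fun t _ => pv (g t)
    have nF : ∀ h, 0 ≤ ∑ p, ‖F h p‖ ^ 2 := fun h => Finset.sum_nonneg fun _ _ => by positivity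
    have nG : ∀ h, 0 ≤ ∑ p, ‖G h p‖ ^ 2 := fun h => Finset.sum_nonneg fun _ _ => by positivity
    calc ‖∑ h ∈ univ.erase (0 : Vec l), ∑ p, ∑ t, F h p * G h t * chi (- (t * pol h p))‖
        ≤ ∑ h ∈ univ.erase (0 : Vec l), 2 * √ (l : ℝ) *
            (√ (∑ p, ‖F h p‖ ^ 2) * √ (∑ t, ‖G h t‖ ^ 2)) := by
          refine (norm_sum_le _ _).trans (Finset.sum_le_sum fun h hh => ?_)
          exact frequency h (Finset.ne_of_mem_erase hh) (F h) (G h)
      _ ≤ ∑ h : Vec l, 2 * √ (l : ℝ) * (√ (∑ p, ‖F h p‖ ^ 2) * √ (∑ t, ‖G h t‖ ^ 2)) := by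
          refine Finset.sum_le_sum_of_subset_of_nonneg (Finset.erase_subset _ _) fun h _ _ => ?_
          positivity
      _ = 2 * √ (l : ℝ) * ∑ h : Vec l, (√ (∑ p, ‖F h p‖ ^ 2) * √ (∑ t, ‖G h t‖ ^ 2)) := by
          rw [Finset.mul_sum]
      _ ≤ 2 * √ (l : ℝ) * (√ (∑ h : Vec l, ∑ p, ‖F h p‖ ^ 2) *
            √ (∑ h : Vec l, ∑ t, ‖G h t‖ ^ 2)) := by
          refine mul_le_mul_of_nonneg_left ?_ (by positivity)
          have := Real.sum_mul_le_sqrt_mul_sqrt univ (fun h => √ (∑ p, ‖F h p‖ ^ 2))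
            (fun h => √ (∑ t, ‖G h t‖ ^ 2))
          simp only [Real.sq_sqrt (nF _), Real.sq_sqrt (nG _)] at this
          exact this
      _ = 2 * √ (l : ℝ) * ((l : ℝ) ^ 4 * (√ (∑ p, ∑ x, f p x ^ 2) * √ (∑ t, ∑ x, g t x ^ 2))) := by
          rw [pF, pG, Real.sqrt_mul (by positivity), Real.sqrt_mul (by positivity)]
          have : √ ((l : ℝ) ^ 4) * √ ((l : ℝ) ^ 4) = (l : ℝ) ^ 4 :=
            Real.mul_self_sqrt (by positivity)
          calc 2 * √ (l : ℝ) * (√ ((l : ℝ) ^ 4) * √ (∑ p, ∑ x, f p x ^ 2) *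
                (√ ((l : ℝ) ^ 4) * √ (∑ t, ∑ x, g t x ^ 2)))
              = 2 * √ (l : ℝ) * ((√ ((l : ℝ) ^ 4) * √ ((l : ℝ) ^ 4)) *
                (√ (∑ p, ∑ x, f p x ^ 2) * √ (∑ t, ∑ x, g t x ^ 2))) := by ring
            _ = _ := by rw [this]
  -- conclusion
  have split := Finset.add_sum_erase univ
    (fun h : Vec l => ∑ p, ∑ t, F h p * G h t * chi (- (t * pol h p))) (Finset.mem_univ 0)
  rw [key, zero] at split
  have fin1 : (((l : ℝ) ^ 4 * (∑ p, ∑ t, ∑ x, f p x * g t (tgt p t - x) -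
      (∑ p, ∑ x, f p x) * (∑ t, ∑ x, g t x) / (l : ℝ) ^ 4) : ℝ) : ℂ) =
      ∑ h ∈ univ.erase (0 : Vec l), ∑ p, ∑ t, F h p * G h t * chi (- (t * pol h p)) := by
    have hl4 : (l : ℝ) ^ 4 ≠ 0 := by positivity
    rw [mul_sub, mul_div_cancel₀ _ hl4]
    have : (((l : ℝ) ^ 4 * ∑ p, ∑ t, ∑ x, f p x * g t (tgt p t - x) : ℝ) : ℂ) =
        ((l : ℂ)) ^ 4 * ∑ p, ∑ t, ∑ x, ((f p x : ℂ) * (g t (tgt p t - x) : ℂ)) := by
      push_cast
      rfl
    rw [Complex.ofReal_sub, this, ← split]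
    ring
  have fin2 : |(l : ℝ) ^ 4 * (∑ p, ∑ t, ∑ x, f p x * g t (tgt p t - x) -
      (∑ p, ∑ x, f p x) * (∑ t, ∑ x, g t x) / (l : ℝ) ^ 4)| ≤
      2 * √ (l : ℝ) * ((l : ℝ) ^ 4 * (√ (∑ p, ∑ x, f p x ^ 2) * √ (∑ t, ∑ x, g t x ^ 2))) := by
    rw [← fin1, Complex.norm_real, Real.norm_eq_abs] at rest
    exact rest
  rw [abs_mul, abs_of_pos (by positivity : (0 : ℝ) < (l : ℝ) ^ 4)] at fin2
  have hl4 : (0 : ℝ) < (l : ℝ) ^ 4 := by positivity
  have fin3 : (l : ℝ) ^ 4 * |∑ p, ∑ t, ∑ x, f p x * g t (tgt p t - x) -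
      (∑ p, ∑ x, f p x) * (∑ t, ∑ x, g t x) / (l : ℝ) ^ 4| ≤
      (l : ℝ) ^ 4 * (2 * √ (l : ℝ) * (√ (∑ p, ∑ x, f p x ^ 2) * √ (∑ t, ∑ x, g t x ^ 2))) := by
    calc _ ≤ _ := fin2
      _ = _ := by ring
  exact le_of_mul_le_mul_left fin3 hl4

end Pool.Agent.K1H36.TS
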