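import Pool.Agent.K1H36.TS.Count
import Pool.Agent.K1H36.NF.Inst

/-!
# The instances of Exact Triangle
-/

set_option autoImplicit false

open Finset

namespace Pool.Agent.K1H36.TS

open Pool.Agent.K1H36.TW Pool.Agent.K1H36.NF

variable {l : ℕ} [Fact l.Prime]

instance instNeZeroOfPrime : NeZero l := ⟨(Fact.out : l.Prime).ne_zero⟩

/-- The number with given digits. -/
def enc (v : Vec l) : ℤ := ∑ i, ((v i).val : ℤ) * (l : ℤ) ^ (i : ℕ)

theorem enc_eq (v : Vec l) : enc v =
    (((finFunctionFinEquiv (m := l) (n := 4)) fun i => ⟨(v i).val, ZMod.val_lt _⟩ : Fin (l ^ 4)) :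
      ℕ) := by
  rw [finFunctionFinEquiv_apply]
  unfold enc
  push_cast
  rfl

theorem enc_inj {v w : Vec l} (h : enc v = enc w) : v = w := by
  rw [enc_eq, enc_eq] at h
  have h1 := Fin.ext (Nat.cast_injective h)
  have h2 := (finFunctionFinEquiv (m := l) (n := 4)).injective h1
  funext i
  have h3 := congrFun h2 i
  simp only [Fin.mk.injEq] at h3
  exact ZMod.val_injective l h3

theorem enc_nonneg (v : Vec l) : 0 ≤ enc v := by
  rw [enc_eq]
  exact Int.natCast_nonneg _

theorem enc_lt (v : Vec l) : enc v < (l : ℤ) ^ 4 := by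
  rw [enc_eq]
  exact_mod_cast Fin.isLt _

/-- The vectors with small digits. -/
def Dom (l : ℕ) [Fact l.Prime] : Finset (Vec l) :=
  Fintype.piFinset fun _ => univ.filter fun a : ZMod l => 2 * a.val < l

theorem enc_add {x y : Vec l} (hx : x ∈ Dom l) (hy : y ∈ Dom l) : enc (x + y) = enc x + enc y := by
  unfold Dom at hx hy
  rw [Fintype.mem_piFinset] at hx hy
  unfold enc
  rw [← Finset.sum_add_distrib]
  refine Finset.sum_congr rfl fun i _ => ?_
  have h1 := (Finset.mem_filter.mp (hx i)).2
  have h2 := (Finset.mem_filter.mp (hy i)).2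
  rw [Pi.add_apply, ZMod.val_add_of_lt (by omega)]
  push_cast
  ring

theorem enc_sum {x y c : Vec l} (hx : x ∈ Dom l) (hy : y ∈ Dom l) :
    enc x + enc y - enc c = 0 ↔ x + y = c := by
  rw [← enc_add hx hy, sub_eq_zero]
  exact ⟨fun h => enc_inj h, fun h => by rw [h]⟩

theorem card_dom : (l : ℝ) ^ 4 ≤ 16 * ((Dom l).card : ℝ) := by
  have h1 : l ≤ 2 * (univ.filter fun a : ZMod l => 2 * a.val < l).card := by
    have h2 : (Finset.range ((l + 1) / 2)).card ≤
        (univ.filter fun a : ZMod l => 2 * a.val < l).card := by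
      refine Finset.card_le_card_of_injOn (fun i => (i : ZMod l)) ?_ ?_
      · intro i hi
        have hi' : i < (l + 1) / 2 := Finset.mem_range.mp hi
        rw [Finset.mem_coe, Finset.mem_filter]
        refine ⟨Finset.mem_univ _, ?_⟩
        rw [ZMod.val_natCast, Nat.mod_eq_of_lt (by omega)]
        omega
      · intro i hi j hj hij
        have hi' : i < (l + 1) / 2 := Finset.mem_range.mp hi
        have hj' : j < (l + 1) / 2 := Finset.mem_range.mp hj
        have h3 := congrArg ZMod.val hij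
        simp only at h3
        rw [ZMod.val_natCast, ZMod.val_natCast, Nat.mod_eq_of_lt (by omega),
          Nat.mod_eq_of_lt (by omega)] at h3
        exact h3
    rw [Finset.card_range] at h2
    omega
  have h2 : (Dom l).card = (univ.filter fun a : ZMod l => 2 * a.val < l).card ^ 4 := by
    unfold Dom
    rw [Fintype.card_piFinset, Finset.prod_const, Finset.card_univ, Fintype.card_fin]
  rw [h2]
  push_cast
  have h3 : (l : ℝ) ≤ 2 * ((univ.filter fun a : ZMod l => 2 * a.val < l).card : ℝ) := by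
    exact_mod_cast h1
  calc (l : ℝ) ^ 4 ≤ (2 * ((univ.filter fun a : ZMod l => 2 * a.val < l).card : ℝ)) ^ 4 :=
        pow_le_pow_left₀ (Nat.cast_nonneg _) h3 4
    _ = _ := by ring

/-- The inputs without zero triangles. -/
def Free (z : Bool × ZMod l × ZMod l → Vec l) : Prop :=
  ∀ q p t, z (false, q, p) + z (true, q, t) ≠ tgt p t

open Classical in
/-- Few inputs have a zero triangle. -/
theorem card_not_free : ((Fintype.piFinset fun _ : Bool × ZMod l × ZMod l => Dom l).filter
    fun z => ¬ Free z).card ≤ l ^ 3 * (Dom l).card ^ (2 * l ^ 2 - 1) := by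
  have hsub : ((Fintype.piFinset fun _ : Bool × ZMod l × ZMod l => Dom l).filter
      fun z => ¬ Free z) ⊆ (univ : Finset (ZMod l × ZMod l × ZMod l)).biUnion fun x =>
        (Fintype.piFinset fun _ : Bool × ZMod l × ZMod l => Dom l).filter fun z =>
          z (false, x.1, x.2.1) + z (true, x.1, x.2.2) = tgt x.2.1 x.2.2 := by
    intro z hz
    rw [Finset.mem_filter] at hz
    obtain ⟨h1, h2⟩ := hz
    unfold Free at h2
    push Not at h2
    obtain ⟨q, p, t, h3⟩ := h2
    rw [Finset.mem_biUnion]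
    exact ⟨(q, p, t), Finset.mem_univ _, Finset.mem_filter.mpr ⟨h1, h3⟩⟩
  refine (Finset.card_le_card hsub).trans (Finset.card_biUnion_le.trans ?_)
  calc ∑ x : ZMod l × ZMod l × ZMod l, ((Fintype.piFinset fun _ : Bool × ZMod l × ZMod l =>
        Dom l).filter fun z => z (false, x.1, x.2.1) + z (true, x.1, x.2.2) = tgt x.2.1 x.2.2).card
      ≤ ∑ _x : ZMod l × ZMod l × ZMod l, (Dom l).card ^ (2 * l ^ 2 - 1) := by
        refine Finset.sum_le_sum fun x _ => ?_
        set C := (Fintype.piFinset fun _ : Bool × ZMod l × ZMod l =>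
          Dom l).filter fun z => z (false, x.1, x.2.1) + z (true, x.1, x.2.2) = tgt x.2.1 x.2.2
          with hC
        have h1 := card_stems {((true, x.1, x.2.2) : Bool × ZMod l × ZMod l)} (Dom l) (0 : Vec l) C
          (by
            intro z hz v
            rw [hC, Finset.mem_filter, Fintype.mem_piFinset] at hz
            exact hz.1 v)
        rw [Finset.card_singleton, Fintype.card_prod, Fintype.card_prod, Fintype.card_bool,
          ZMod.card] at h1
        have h2 : 2 * (l * l) = 2 * l ^ 2 := by ring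
        rw [h2] at h1
        refine le_trans (le_of_eq ?_) h1
        symm
        refine Finset.card_image_of_injOn ?_
        intro z hz z' hz' hzz
        rw [hC, Finset.mem_coe, Finset.mem_filter] at hz hz'
        have h3 : ∀ v, v ≠ (true, x.1, x.2.2) → z v = z' v := by
          intro v hv
          have h4 := congrFun hzz v
          have h5 : v ∉ ({((true, x.1, x.2.2) : Bool × ZMod l × ZMod l)} :
              Finset (Bool × ZMod l × ZMod l)) := by
            rw [Finset.mem_singleton]
            exact hv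
          simp only [if_neg h5] at h4
          exact h4
        funext v
        by_cases hv : v = (true, x.1, x.2.2)
        · rw [hv]
          have h6 : z (false, x.1, x.2.1) = z' (false, x.1, x.2.1) := h3 _ (by
            intro hc
            have h8 : false = true := congrArg Prod.fst hc
            exact Bool.false_ne_true h8)
          have h7 := hz.2.trans hz'.2.symm
          rw [h6] at h7
          exact add_left_cancel h7
        · exact h3 v hv
    _ = l ^ 3 * (Dom l).card ^ (2 * l ^ 2 - 1) := by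
        rw [Finset.sum_const, Finset.card_univ, Fintype.card_prod, Fintype.card_prod, ZMod.card,
          smul_eq_mul]
        ring

/-- The weights. -/
def wts (z : Bool × ZMod l × ZMod l → Vec l) (v : Var l) : ℤ :=
  if v.1 = 0 then enc (z (false, ((v.2.2 : ℕ) : ZMod l), ((v.2.1 : ℕ) : ZMod l)))
  else if v.1 = 1 then enc (z (true, ((v.2.1 : ℕ) : ZMod l), ((v.2.2 : ℕ) : ZMod l)))
  else - enc (tgt ((v.2.2 : ℕ) : ZMod l) ((v.2.1 : ℕ) : ZMod l))

theorem wts_sum (z : Bool × ZMod l × ZMod l → Vec l) (T : Fin 3 → Fin l) :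
    ∑ i, wts z (i, T i, T (i + 1)) =
      enc (z (false, ((T 1 : ℕ) : ZMod l), ((T 0 : ℕ) : ZMod l))) +
      enc (z (true, ((T 1 : ℕ) : ZMod l), ((T 2 : ℕ) : ZMod l))) -
      enc (tgt ((T 0 : ℕ) : ZMod l) ((T 2 : ℕ) : ZMod l)) := by
  have e0 : (0 : Fin 3) + 1 = 1 := by decide
  have e1 : (1 : Fin 3) + 1 = 2 := by decide
  have e2 : (2 : Fin 3) + 1 = 0 := by decide
  have n1 : ¬ (1 : Fin 3) = 0 := by decide
  have n2 : ¬ (2 : Fin 3) = 0 := by decide
  have n3 : ¬ (2 : Fin 3) = 1 := by decide
  rw [Fin.sum_univ_three]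
  unfold wts
  simp only [e0, e1, e2, n1, n2, n3, if_true, if_false]
  ring

theorem zero_iff (z : Bool × ZMod l × ZMod l → Vec l) (hz : ∀ v, z v ∈ Dom l) :
    (∃ T : Fin 3 → Fin l, ∑ i, wts z (i, T i, T (i + 1)) = 0) ↔ ¬ Free z := by
  constructor
  · rintro ⟨T, hT⟩ hfree
    rw [wts_sum, enc_sum (hz _) (hz _)] at hT
    exact hfree _ _ _ hT
  · intro h
    unfold Free at h
    push Not at h
    obtain ⟨q, p, t, h1⟩ := h
    refine ⟨fun i => if i = 0 then ⟨p.val, ZMod.val_lt _⟩ else if i = 1 then ⟨q.val, ZMod.val_lt _⟩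
      else ⟨t.val, ZMod.val_lt _⟩, ?_⟩
    rw [wts_sum, enc_sum (hz _) (hz _)]
    have n1 : ¬ (1 : Fin 3) = 0 := by decide
    have n2 : ¬ (2 : Fin 3) = 0 := by decide
    have n3 : ¬ (2 : Fin 3) = 1 := by decide
    simp only [n1, n2, n3, if_true, if_false]
    rw [ZMod.natCast_zmod_val, ZMod.natCast_zmod_val, ZMod.natCast_zmod_val]
    exact h1

/-- The input of the program. -/
noncomputable def input (n : ℕ) (z : Bool × ZMod l × ZMod l → Vec l) (c : Fin n × Fin n) :
    Bool × ℤ := inp l (wts z) c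

/-- The variable in a cell. -/
def cellVar {n : ℕ} (c : Fin n × Fin n) : Option (Bool × ZMod l × ZMod l) :=
  match (lab c.1 c.2 : Option (Var l)) with
  | none => none
  | some v => if v.1 = 0 then some (false, ((v.2.2 : ℕ) : ZMod l), ((v.2.1 : ℕ) : ZMod l))
    else if v.1 = 1 then some (true, ((v.2.1 : ℕ) : ZMod l), ((v.2.2 : ℕ) : ZMod l))
    else none

theorem input_congr {n : ℕ} (z z' : Bool × ZMod l × ZMod l → Vec l) (c : Fin n × Fin n)
    (h : ∀ v, cellVar c = some v → z v = z' v) : input n z c = input n z' c := by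
  unfold input
  refine inp_congr _ _ c fun v hv => ?_
  unfold cellVar at h
  rw [hv] at h
  simp only at h
  unfold wts
  by_cases h0 : v.1 = 0
  · rw [if_pos h0, if_pos h0]
    rw [if_pos h0] at h
    rw [h _ rfl]
  · rw [if_neg h0, if_neg h0]
    rw [if_neg h0] at h
    by_cases h1 : v.1 = 1
    · rw [if_pos h1, if_pos h1]
      rw [if_pos h1] at h
      rw [h _ rfl]
    · rw [if_neg h1, if_neg h1]

theorem input_valid {n : ℕ} (hn : 3 * l ≤ n) (z : Bool × ZMod l × ZMod l → Vec l) :
    Valid n (input n z) := by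
  refine inp_valid _ fun v => ?_
  have hl : 0 < l := (Fact.out : l.Prime).pos
  have h1 : (l : ℤ) ^ 4 ≤ (n : ℤ) ^ 300 := by
    have h2 : (l : ℤ) ≤ n := by exact_mod_cast (by omega : l ≤ n)
    have h3 : (1 : ℤ) ≤ n := by exact_mod_cast (by omega : 1 ≤ n)
    calc (l : ℤ) ^ 4 ≤ (n : ℤ) ^ 4 := by gcongr
      _ ≤ (n : ℤ) ^ 300 := pow_le_pow_right₀ h3 (by norm_num)
  have h2 : ∀ x : Vec l, |enc x| ≤ (n : ℤ) ^ 300 := by
    intro x
    rw [abs_of_nonneg (enc_nonneg x)]
    exact (enc_lt x).le.trans h1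
  unfold wts
  split_ifs
  · exact h2 _
  · exact h2 _
  · rw [abs_neg]
    exact h2 _

theorem input_yes {n : ℕ} (hn : 3 * l ≤ n) (z : Bool × ZMod l × ZMod l → Vec l)
    (hz : ∀ v, z v ∈ Dom l) : Yes n (input n z) ↔ ¬ Free z := by
  have h1 : Yes n (input n z) ↔ ∃ T : Fin 3 → Fin l, ∑ i, wts z (i, T i, T (i + 1)) = 0 :=
    inp_yes hn (wts z)
  rw [h1, zero_iff z hz]

end Pool.Agent.K1H36.TS
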