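import Pool.Agent.K1H36.TS.Final

/-!
# Random programs
-/

set_option autoImplicit false

open Finset

namespace Pool.Agent.K1H36.TS

open Pool.Agent.K1H36.TW Pool.Agent.K1H36.NF

open Classical in
/-- The trade-off with a prime number. -/
theorem tradeoff_prime {l : ℕ} [Fact l.Prime] {n T k : ℕ} (hn : 3 * l ≤ n) (hk : 0 < k)
    (hT : T ≤ k * l ^ 2) {S : ℝ} (hS : 1 ≤ S) {Z Ω : Type} [Fintype Z] [Fintype Ω]
    (hZ : (Fintype.card Z : ℝ) ≤ 2 ^ S) (P : Ω → ℝ) (hP : ∀ ω, 0 ≤ P ω) (hP1 : ∑ ω, P ω = 1)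
    (M : Ω → Prog (Fin n × Fin n) (Bool × ℤ) Z)
    (sound : ∀ ω x, Valid n x → (M ω).Accepts x → ¬ Yes n x)
    (complete : ∀ x, Valid n x → ¬ Yes n x →
      1 / 2 ≤ ∑ ω ∈ univ.filter (fun ω => (M ω).AcceptsIn x T), P ω) :
    (l : ℝ) ≤ S * 2 ^ (160 * k + 60) := by
  by_cases hl : 64 ≤ l
  · -- the accepted inputs
    set Ω' := Fintype.piFinset fun _ : Bool × ZMod l × ZMod l => Dom l with hΩ'
    set A : Ω → Finset (Bool × ZMod l × ZMod l → Vec l) := fun ω =>
      Ω'.filter fun z => (M ω).AcceptsIn (input n z) T with hA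
    set F := Ω'.filter fun z => Free z with hF
    have hFcard : 3 / 4 * ((Dom l).card : ℝ) ^ (2 * l ^ 2) ≤ (F.card : ℝ) := by
      refine card_free hl F fun z hz hfree => ?_
      rw [hF, Finset.mem_filter, hΩ', Fintype.mem_piFinset]
      exact ⟨hz, hfree⟩
    have hsum : 1 / 2 * (F.card : ℝ) ≤ ∑ ω, P ω * ((A ω).card : ℝ) := by
      calc 1 / 2 * (F.card : ℝ) = ∑ _z ∈ F, (1 / 2 : ℝ) := by
            rw [Finset.sum_const, nsmul_eq_mul, mul_comm]
        _ ≤ ∑ z ∈ F, ∑ ω ∈ univ.filter (fun ω => (M ω).AcceptsIn (input n z) T), P ω := by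
            refine Finset.sum_le_sum fun z hz => ?_
            rw [hF, Finset.mem_filter, hΩ', Fintype.mem_piFinset] at hz
            refine complete _ (input_valid hn z) fun hyes => ?_
            exact (input_yes hn z hz.1).mp hyes hz.2
        _ ≤ ∑ z ∈ Ω', ∑ ω ∈ univ.filter (fun ω => (M ω).AcceptsIn (input n z) T), P ω := by
            refine Finset.sum_le_sum_of_subset_of_nonneg (Finset.filter_subset _ _) fun z _ _ => ?_
            exact Finset.sum_nonneg fun ω _ => hP ω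
        _ = ∑ z ∈ Ω', ∑ ω, (if (M ω).AcceptsIn (input n z) T then P ω else 0) := by
            refine Finset.sum_congr rfl fun z _ => ?_
            rw [Finset.sum_filter]
        _ = ∑ ω, ∑ z ∈ Ω', (if (M ω).AcceptsIn (input n z) T then P ω else 0) :=
            Finset.sum_comm
        _ = ∑ ω, P ω * ((A ω).card : ℝ) := by
            refine Finset.sum_congr rfl fun ω _ => ?_
            rw [← Finset.sum_filter, Finset.sum_const, nsmul_eq_mul, mul_comm]
    obtain ⟨ω, hω⟩ : ∃ ω, 1 / 4 * ((Dom l).card : ℝ) ^ (2 * l ^ 2) ≤ ((A ω).card : ℝ) := by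
      by_contra hcon
      push Not at hcon
      have hN : (0 : ℝ) < ((Dom l).card : ℝ) ^ (2 * l ^ 2) := by
        have h1 := card_dom (l := l)
        have hlpos : (0 : ℝ) < l := by exact_mod_cast (Fact.out : l.Prime).pos
        have h2 : (0 : ℝ) < (l : ℝ) ^ 4 := by positivity
        have h3 : (0 : ℝ) < (Dom l).card := by linarith
        positivity
      have h1 : ∑ ω, P ω * ((A ω).card : ℝ) ≤
          ∑ ω, P ω * (1 / 4 * ((Dom l).card : ℝ) ^ (2 * l ^ 2)) :=
        Finset.sum_le_sum fun ω _ => mul_le_mul_of_nonneg_left (hcon ω).le (hP ω)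
      rw [← Finset.sum_mul, hP1, one_mul] at h1
      linarith
    refine tradeoff (M := M ω) (I := input n) (ρ := cellVar) input_congr ?_ (A ω) hk hT ?_ hω hS hZ
    · intro z hz hacc
      have h1 := sound ω _ (input_valid hn z) hacc
      rw [input_yes hn z hz, not_not] at h1
      exact h1
    · intro z hz
      rw [hA] at hz
      simp only at hz
      rw [Finset.mem_filter, hΩ', Fintype.mem_piFinset] at hz
      exact hz
  · push Not at hl
    have h1 : (l : ℝ) ≤ 64 := by exact_mod_cast hl.le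
    have h2 : (64 : ℝ) ≤ 2 ^ (160 * k + 60) := by
      calc (64 : ℝ) = 2 ^ 6 := by norm_num
        _ ≤ 2 ^ (160 * k + 60) := pow_le_pow_right₀ (by norm_num) (by omega)
    nlinarith

open Classical in
/-- **The trade-off.** -/
theorem tradeoff_main {n T : ℕ} {S : ℝ} (hS : 1 ≤ S) {Z Ω : Type} [Fintype Z] [Fintype Ω]
    (hZ : (Fintype.card Z : ℝ) ≤ 2 ^ S) (P : Ω → ℝ) (hP : ∀ ω, 0 ≤ P ω) (hP1 : ∑ ω, P ω = 1)
    (M : Ω → Prog (Fin n × Fin n) (Bool × ℤ) Z)
    (sound : ∀ ω x, Valid n x → (M ω).Accepts x → ¬ Yes n x)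
    (complete : ∀ x, Valid n x → ¬ Yes n x →
      1 / 2 ≤ ∑ ω ∈ univ.filter (fun ω => (M ω).AcceptsIn x T), P ω) :
    (n : ℝ) ^ 2 * (Real.logb 2 (n / S) - 223) ≤ 5760 * T := by
  have hT0 : (0 : ℝ) ≤ T := Nat.cast_nonneg _
  by_cases hn : 6 ≤ n
  · obtain ⟨l, hlp, hl1, hl2⟩ := Nat.exists_prime_lt_and_le_two_mul (n / 6) (by omega)
    haveI : Fact l.Prime := ⟨hlp⟩
    have hl3 : 3 * l ≤ n := by omega
    have hl6 : n ≤ 6 * l := by omega
    have hl0 : (0 : ℝ) < l := by exact_mod_cast hlp.pos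
    have hn0 : (0 : ℝ) < n := by exact_mod_cast (by omega : 0 < n)
    have hS0 : 0 < S := by linarith
    obtain ⟨k, hk⟩ : ∃ k, k = T / l ^ 2 + 1 := ⟨_, rfl⟩
    have hTk : T ≤ k * l ^ 2 := by
      have h := Nat.lt_mul_div_succ T (pow_pos hlp.pos 2)
      rw [hk, Nat.mul_comm]
      exact h.le
    have h1 := tradeoff_prime hl3 (by rw [hk]; exact Nat.succ_pos _ : 0 < k) hTk hS hZ P hP hP1 M sound complete
    have hk2 : (k : ℝ) ≤ T / (l : ℝ) ^ 2 + 1 := by
      rw [hk]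
      push_cast
      have h2 : (((T / l ^ 2 : ℕ)) : ℝ) ≤ (T : ℝ) / ((l ^ 2 : ℕ) : ℝ) := Nat.cast_div_le
      push_cast at h2
      linarith
    have h6 : (n : ℝ) ≤ 6 * l := by exact_mod_cast hl6
    have h3 : Real.logb 2 (n / S) ≤ 160 * k + 63 := by
      have h4 : (n : ℝ) / S ≤ 2 ^ ((160 * (k : ℝ) + 63 : ℝ)) := by
        rw [div_le_iff₀ hS0]
        have h5 : (2 : ℝ) ^ ((160 * (k : ℝ) + 63 : ℝ)) = 8 * 2 ^ (160 * k + 60) := by
          have e : (160 * (k : ℝ) + 63 : ℝ) = ((160 * k + 63 : ℕ) : ℝ) := by push_cast; ring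
          rw [e, Real.rpow_natCast, show 160 * k + 63 = 3 + (160 * k + 60) by ring, pow_add]
          norm_num
        rw [h5]
        have h7 : (0 : ℝ) ≤ S * 2 ^ (160 * k + 60) := by positivity
        calc (n : ℝ) ≤ 6 * l := h6
          _ ≤ 6 * (S * 2 ^ (160 * k + 60)) := by linarith
          _ ≤ 8 * 2 ^ (160 * k + 60) * S := by linarith
      calc Real.logb 2 (n / S) ≤ Real.logb 2 (2 ^ ((160 * (k : ℝ) + 63 : ℝ))) :=
            Real.logb_le_logb_of_le (by norm_num) (by positivity) h4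
        _ = 160 * k + 63 := Real.logb_rpow (by norm_num) (by norm_num)
    have h8 : Real.logb 2 (n / S) - 223 ≤ 160 * (T / (l : ℝ) ^ 2) := by linarith
    have h9 : (n : ℝ) ^ 2 ≤ 36 * (l : ℝ) ^ 2 := by nlinarith
    have h10 : (0 : ℝ) ≤ T / (l : ℝ) ^ 2 := by positivity
    calc (n : ℝ) ^ 2 * (Real.logb 2 (n / S) - 223)
        ≤ (n : ℝ) ^ 2 * (160 * (T / (l : ℝ) ^ 2)) :=
          mul_le_mul_of_nonneg_left h8 (by positivity)
      _ ≤ (36 * (l : ℝ) ^ 2) * (160 * (T / (l : ℝ) ^ 2)) :=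
          mul_le_mul_of_nonneg_right h9 (by positivity)
      _ = 5760 * T := by field_simp; ring
  · push Not at hn
    have h1 : Real.logb 2 (n / S) ≤ 3 := by
      rcases Nat.eq_zero_or_pos n with h0 | h0
      · rw [h0, Nat.cast_zero, zero_div, Real.logb_zero]
        norm_num
      · have hn0 : (0 : ℝ) < n := by exact_mod_cast h0
        have hn8 : (n : ℝ) ≤ 8 := by exact_mod_cast (by omega : n ≤ 8)
        have h2 : (n : ℝ) / S ≤ 8 := (div_le_self hn0.le hS).trans hn8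
        calc Real.logb 2 (n / S) ≤ Real.logb 2 8 :=
              Real.logb_le_logb_of_le (by norm_num) (by positivity) h2
          _ = 3 := by
            rw [show (8 : ℝ) = 2 ^ (3 : ℝ) by norm_num, Real.logb_rpow (by norm_num) (by norm_num)]
    have h3 : (n : ℝ) ^ 2 * (Real.logb 2 (n / S) - 223) ≤ 0 :=
      mul_nonpos_of_nonneg_of_nonpos (by positivity) (by linarith)
    linarith

end Pool.Agent.K1H36.TS
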